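import Pool.Agent.H.MP_6c077c_gt.IxC.Gap

/-!
# A conformal energy bound for knotted three spheres (MP_6c077c_gt)

`M = {F = 0}` is the regular zero set of a smooth function on a Euclidean space `V` of dimension
four, with `{F ≤ 0}` bounded; `M` is homeomorphic to the sphere (or only connected and such that
every circle valued map lifts).  If the integral over `M` of the third power of the norm of the trace
free second fundamental form is less than `6 √6 π²` (this is `4 (3/2)^(3/2)` times the volume `2 π²`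
of the unit sphere) then a diffeomorphism of `V` which is the identity outside a bounded set carries
`M` onto the round unit sphere.
-/

set_option autoImplicit false

namespace Pool.Agent.Results.MP_6c077c_gt.ConformalEnergy

open scoped ContDiff RealInnerProductSpace ENNReal
open Metric Set MeasureTheory Pool.Schoen

variable {V : Type*} [NormedAddCommGroup V] [InnerProductSpace ℝ V] [FiniteDimensional ℝ V]

/-- The norm of the trace free second fundamental form of the level set of `F` through `x`, in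
dimension four: `sqrt (tr (S²) - (tr S)² / 3)` for the shape operator `S = shape F x`; it equals
`sqrt (∑ (κ i - H)²)`, where `κ i` are the three principal curvatures and `H` is their mean. -/
noncomputable def tracefree (F : V → ℝ) (x : V) : ℝ :=
  Real.sqrt (LinearMap.trace ℝ V ((shape F x : V →ₗ[ℝ] V) ∘ₗ (shape F x : V →ₗ[ℝ] V)) -
    LinearMap.trace ℝ V (shape F x : V →ₗ[ℝ] V) ^ 2 / 3)

theorem result [MeasurableSpace V] [BorelSpace V] (hV : Module.finrank ℝ V = 4) (F : V → ℝ)
    (hF : ContDiff ℝ ∞ F) (hb : Bornology.IsBounded {x | F x ≤ 0})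
    (hreg : ∀ x, F x = 0 → gradient F x ≠ 0)
    (hM : Nonempty ({x : V // F x = 0} ≃ₜ sphere (0 : V) 1) ∨
      (IsConnected {x | F x = 0} ∧
        ∀ u : V → ℂ, ContinuousOn u {x | F x = 0} → (∀ x ∈ {x | F x = 0}, ‖u x‖ = 1) →
          ∃ v : V → ℝ, ContinuousOn v {x | F x = 0} ∧
            ∀ x ∈ {x | F x = 0}, u x = Complex.exp (v x * Complex.I)))
    (hint : ∫⁻ x in {x | F x = 0}, ENNReal.ofReal (tracefree F x ^ 3) ∂μH[(3 : ℝ)] <
      ENNReal.ofReal (4 * Real.sqrt (3 / 2) ^ 3) * μH[(3 : ℝ)] (sphere (0 : V) 1)) :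
    ∃ φ ψ : V → V, ContDiff ℝ ∞ φ ∧ ContDiff ℝ ∞ ψ ∧ (∀ x, ψ (φ x) = x) ∧ (∀ x, φ (ψ x) = x) ∧
      (∃ R : ℝ, ∀ x, R ≤ ‖x‖ → φ x = x) ∧ φ '' {x | F x = 0} = sphere (0 : V) 1 := by
  have hM' : IsConnected {x | F x = 0} ∧ LiftS {x | F x = 0} := by
    rcases hM with h | h
    · exact level_top (by omega) F h
    · exact h
  refine ix_gap (by omega) F hF hb hreg hM'.1 hM'.2 ?_
  have e1 : ∀ x, cgT (2 + 1) (shape F x) = tracefree F x := by
    intro x
    unfold cgT tracefree
    norm_num
  have e2 : ENNReal.ofReal (((2 : ℕ) : ℝ) *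
      Real.sqrt ((((2 : ℕ) : ℝ) + 1) / ((2 : ℕ) : ℝ)) ^ (2 + 1)) *
        (2 * μH[((3 : ℕ) : ℝ)] (sphere (0 : V) 1)) =
      ENNReal.ofReal (4 * Real.sqrt (3 / 2) ^ 3) * μH[(3 : ℝ)] (sphere (0 : V) 1) := by
    rw [← mul_assoc]
    have h2 : (2 : ℝ≥0∞) = ENNReal.ofReal 2 := by simp
    rw [h2, ← ENNReal.ofReal_mul (by positivity)]
    have h3 : ((2 : ℕ) : ℝ) * Real.sqrt ((((2 : ℕ) : ℝ) + 1) / ((2 : ℕ) : ℝ)) ^ (2 + 1) * 2 =
        4 * Real.sqrt (3 / 2) ^ 3 := by
      norm_num
      ring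
    rw [h3]
    norm_num
  rw [e2]
  simp only [e1]
  exact_mod_cast hint

end Pool.Agent.Results.MP_6c077c_gt.ConformalEnergy
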