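import Pool.Agent.H.MP_6c077c_gt.F2.FinalC
import Pool.Agent.H.MP_6c077c_gt.F2.Curv

/-!
# Curvature carried by facing pairs (MP_6c077c_gt)

`M = {F = 0}` is the regular zero set of a smooth function `F` on a Euclidean space `V` of
dimension four, with `W = {F ≤ 0}` bounded; `M` is homeomorphic to the sphere (or only connected
and such that every circle valued map lifts).  Let `M_j` be the set of points of `M` with exactly
`j` negative principal curvatures (outer normal `N`).  Let `w` be a measurable weight such that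
`w(x) + w(y) ≥ 1` for all `x, y ∈ M₂` of nonzero curvature with `N(x) = -N(y)` and
`⟪N(y), x - y⟫ > 0` (facing pairs).  If `2 ∫ w |K|` over `M₂` is less than the volume of the unit
sphere, then `M` is carried onto the round sphere by a diffeomorphism of `V` with bounded support.
The same holds for `M₁` and `⟪N(y), x - y⟫ < 0`.
-/

set_option autoImplicit false

namespace Pool.Agent.Results.MP_6c077c_gt.FacingCurvature

open scoped ContDiff RealInnerProductSpace ENNReal
open Metric Set MeasureTheory Pool.Schoen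

variable {V : Type*} [NormedAddCommGroup V] [InnerProductSpace ℝ V] [FiniteDimensional ℝ V]

theorem result [MeasurableSpace V] [BorelSpace V]
    (hV : Module.finrank ℝ V = 4) (F : V → ℝ) (hF : ContDiff ℝ ∞ F)
    (hb : Bornology.IsBounded {x | F x ≤ 0}) (hreg : ∀ x, F x = 0 → gradient F x ≠ 0)
    (hM : Nonempty ({x : V // F x = 0} ≃ₜ sphere (0 : V) 1) ∨
      (IsConnected {x | F x = 0} ∧
        ∀ u : V → ℂ, ContinuousOn u {x | F x = 0} → (∀ x ∈ {x | F x = 0}, ‖u x‖ = 1) →
          ∃ v : V → ℝ, ContinuousOn v {x | F x = 0} ∧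
            ∀ x ∈ {x | F x = 0}, u x = Complex.exp (v x * Complex.I)))
    (w : V → ℝ≥0∞) (hw : Measurable w)
    (hcurv :
      ((∀ x y, F x = 0 → F y = 0 → gaussK F x ≠ 0 → gaussK F y ≠ 0 → nneg F x = 2 →
          nneg F y = 2 → nrm F x = -nrm F y → 0 < ⟪nrm F y, x - y⟫ → 1 ≤ w x + w y) ∧
        2 * ∫⁻ x in {x | F x = 0 ∧ nneg F x = 2}, w x * ENNReal.ofReal |gaussK F x| ∂μH[3] <
          μH[3] (sphere (0 : V) 1)) ∨
      ((∀ x y, F x = 0 → F y = 0 → gaussK F x ≠ 0 → gaussK F y ≠ 0 → nneg F x = 1 →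
          nneg F y = 1 → nrm F x = -nrm F y → ⟪nrm F y, x - y⟫ < 0 → 1 ≤ w x + w y) ∧
        2 * ∫⁻ x in {x | F x = 0 ∧ nneg F x = 1}, w x * ENNReal.ofReal |gaussK F x| ∂μH[3] <
          μH[3] (sphere (0 : V) 1))) :
    ∃ φ ψ : V → V, ContDiff ℝ ∞ φ ∧ ContDiff ℝ ∞ ψ ∧ (∀ x, ψ (φ x) = x) ∧ (∀ x, φ (ψ x) = x) ∧
      (∃ R : ℝ, ∀ x, R ≤ ‖x‖ → φ x = x) ∧ φ '' {x | F x = 0} = sphere (0 : V) 1 := by
  have hM' : IsConnected {x | F x = 0} ∧ LiftS {x | F x = 0} := by
    rcases hM with h | h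
    · exact level_top (by omega) F h
    · exact h
  have hK : IsCompact {x | F x = 0} := Final_compact hF.continuous hb
  rcases hcurv with ⟨h1, h2⟩ | ⟨h1, h2⟩
  · obtain ⟨e, he, h⟩ := noFace21_of_weight hV F hF hreg hK w hw h1 h2
    exact f2_carries hV F hF hb hreg hM'.1 hM'.2 e he (Or.inl h)
  · obtain ⟨e, he, h⟩ := noFace21_neg_of_weight hV F hF hreg hK w hw h1 h2
    exact f2_carries hV F hF hb hreg hM'.1 hM'.2 e he (Or.inr h)

theorem measurable_nrm [MeasurableSpace V] [BorelSpace V] (F : V → ℝ) (hF : ContDiff ℝ ∞ F) :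
    Measurable (nrm F) := by
  have hg : Measurable (gradient F) :=
    ((InnerProductSpace.toDual ℝ V).symm.continuous.comp
      (hF.continuous_fderiv (by simp))).measurable
  exact hg.norm.inv.smul hg

/-- Consequence: nearly star-shaped.  If the points `x` with exactly two negative principal
curvatures and `⟪x - o, N(x)⟫ ≤ 0` carry curvature less than half of the volume of the unit sphere,
then `M` is unknotted; the same for exactly one negative principal curvature and
`0 ≤ ⟪x - o, N(x)⟫`. -/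
theorem nearly_star [MeasurableSpace V] [BorelSpace V]
    (hV : Module.finrank ℝ V = 4) (F : V → ℝ) (hF : ContDiff ℝ ∞ F)
    (hb : Bornology.IsBounded {x | F x ≤ 0}) (hreg : ∀ x, F x = 0 → gradient F x ≠ 0)
    (hM : Nonempty ({x : V // F x = 0} ≃ₜ sphere (0 : V) 1)) (o : V)
    (hcurv :
      2 * ∫⁻ x in {x | F x = 0 ∧ nneg F x = 2 ∧ ⟪x - o, nrm F x⟫ ≤ 0},
        ENNReal.ofReal |gaussK F x| ∂μH[3] < μH[3] (sphere (0 : V) 1) ∨
      2 * ∫⁻ x in {x | F x = 0 ∧ nneg F x = 1 ∧ 0 ≤ ⟪x - o, nrm F x⟫},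
        ENNReal.ofReal |gaussK F x| ∂μH[3] < μH[3] (sphere (0 : V) 1)) :
    ∃ φ ψ : V → V, ContDiff ℝ ∞ φ ∧ ContDiff ℝ ∞ ψ ∧ (∀ x, ψ (φ x) = x) ∧ (∀ x, φ (ψ x) = x) ∧
      (∃ R : ℝ, ∀ x, R ≤ ‖x‖ → φ x = x) ∧ φ '' {x | F x = 0} = sphere (0 : V) 1 := by
  classical
  have hn := measurable_nrm F hF
  have hh : Measurable fun x : V => ⟪x - o, nrm F x⟫ := (measurable_id.sub_const o).inner hn
  have key : ∀ (S : Set V) (T : Set V), MeasurableSet T →
      ∫⁻ x in S, T.indicator (fun _ => (1 : ℝ≥0∞)) x * ENNReal.ofReal |gaussK F x| ∂μH[3] ≤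
        ∫⁻ x in S ∩ T, ENNReal.ofReal |gaussK F x| ∂μH[3] := by
    intro S T hT
    have e1 : (fun x => T.indicator (fun _ => (1 : ℝ≥0∞)) x * ENNReal.ofReal |gaussK F x|) =
        T.indicator fun x => ENNReal.ofReal |gaussK F x| := by
      funext x
      by_cases hx : x ∈ T
      · rw [indicator_of_mem hx, indicator_of_mem hx, one_mul]
      · rw [indicator_of_notMem hx, indicator_of_notMem hx, zero_mul]
    rw [e1, lintegral_indicator hT, Measure.restrict_restrict hT, inter_comm]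
  rcases hcurv with h | h
  · have hT : MeasurableSet {x : V | ⟪x - o, nrm F x⟫ ≤ 0} := measurableSet_le hh measurable_const
    refine result hV F hF hb hreg (Or.inl hM)
      ({x : V | ⟪x - o, nrm F x⟫ ≤ 0}.indicator fun _ => 1) (measurable_const.indicator hT)
      (Or.inl ⟨?_, ?_⟩)
    · intro x y _ _ _ _ _ _ hxy hpos
      by_cases hx : ⟪x - o, nrm F x⟫ ≤ 0
      · rw [indicator_of_mem (show x ∈ {x : V | ⟪x - o, nrm F x⟫ ≤ 0} from hx)]
        exact le_self_add
      · have hy : ⟪y - o, nrm F y⟫ ≤ 0 := by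
          rw [hxy, inner_neg_right] at hx
          rw [real_inner_comm] at hpos
          have e2 : x - y = (x - o) - (y - o) := by abel
          rw [e2, inner_sub_left] at hpos
          linarith
        rw [indicator_of_mem (show y ∈ {x : V | ⟪x - o, nrm F x⟫ ≤ 0} from hy)]
        exact le_add_self
    · refine lt_of_le_of_lt ?_ h
      refine mul_le_mul_right ((key _ _ hT).trans (lintegral_mono_set ?_)) 2
      rintro x ⟨⟨h1, h2⟩, h3⟩
      exact ⟨h1, h2, h3⟩
  · have hT : MeasurableSet {x : V | 0 ≤ ⟪x - o, nrm F x⟫} := measurableSet_le measurable_const hh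
    refine result hV F hF hb hreg (Or.inl hM)
      ({x : V | 0 ≤ ⟪x - o, nrm F x⟫}.indicator fun _ => 1) (measurable_const.indicator hT)
      (Or.inr ⟨?_, ?_⟩)
    · intro x y _ _ _ _ _ _ hxy hpos
      by_cases hx : 0 ≤ ⟪x - o, nrm F x⟫
      · rw [indicator_of_mem (show x ∈ {x : V | 0 ≤ ⟪x - o, nrm F x⟫} from hx)]
        exact le_self_add
      · have hy : 0 ≤ ⟪y - o, nrm F y⟫ := by
          rw [hxy, inner_neg_right] at hx
          rw [real_inner_comm] at hpos
          have e2 : x - y = (x - o) - (y - o) := by abel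
          rw [e2, inner_sub_left] at hpos
          linarith
        rw [indicator_of_mem (show y ∈ {x : V | 0 ≤ ⟪x - o, nrm F x⟫} from hy)]
        exact le_add_self
    · refine lt_of_le_of_lt ?_ h
      refine mul_le_mul_right ((key _ _ hT).trans (lintegral_mono_set ?_)) 2
      rintro x ⟨⟨h1, h2⟩, h3⟩
      exact ⟨h1, h2, h3⟩

/-- Consequence: the support function.  Let `M` lie in the ball of centre `o` and radius `r`.  If
the integral of `(1 - ⟪x - o, N⟫ / r) |K|` over the points with exactly two negative principal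
curvatures, or the one of `(1 + ⟪x - o, N⟫ / r) |K|` over the points with exactly one, is less than
the volume of the unit sphere, then `M` is unknotted. -/
theorem support [MeasurableSpace V] [BorelSpace V]
    (hV : Module.finrank ℝ V = 4) (F : V → ℝ) (hF : ContDiff ℝ ∞ F)
    (hb : Bornology.IsBounded {x | F x ≤ 0}) (hreg : ∀ x, F x = 0 → gradient F x ≠ 0)
    (hM : Nonempty ({x : V // F x = 0} ≃ₜ sphere (0 : V) 1)) (o : V) (r : ℝ) (hr : 0 < r)
    (hball : ∀ x, F x = 0 → ‖x - o‖ ≤ r)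
    (hcurv :
      ∫⁻ x in {x | F x = 0 ∧ nneg F x = 2},
        ENNReal.ofReal ((1 - ⟪x - o, nrm F x⟫ / r) * |gaussK F x|) ∂μH[3] <
          μH[3] (sphere (0 : V) 1) ∨
      ∫⁻ x in {x | F x = 0 ∧ nneg F x = 1},
        ENNReal.ofReal ((1 + ⟪x - o, nrm F x⟫ / r) * |gaussK F x|) ∂μH[3] <
          μH[3] (sphere (0 : V) 1)) :
    ∃ φ ψ : V → V, ContDiff ℝ ∞ φ ∧ ContDiff ℝ ∞ ψ ∧ (∀ x, ψ (φ x) = x) ∧ (∀ x, φ (ψ x) = x) ∧
      (∃ R : ℝ, ∀ x, R ≤ ‖x‖ → φ x = x) ∧ φ '' {x | F x = 0} = sphere (0 : V) 1 := by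
  have hn := measurable_nrm F hF
  have hh : Measurable fun x : V => ⟪x - o, nrm F x⟫ / r :=
    ((measurable_id.sub_const o).inner hn).div_const r
  have hle : ∀ x, F x = 0 → |⟪x - o, nrm F x⟫ / r| ≤ 1 := by
    intro x hx
    rw [abs_div, abs_of_pos hr, div_le_one hr]
    refine (abs_real_inner_le_norm _ _).trans ?_
    rw [norm_nrm F x (hreg x hx), mul_one]
    exact hball x hx
  have hsum : ∀ x y : V, nrm F x = -nrm F y → ⟪x - o, nrm F x⟫ / r + ⟪y - o, nrm F y⟫ / r =
      -(⟪nrm F y, x - y⟫ / r) := by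
    intro x y hxy
    have e2 : x - y = (x - o) - (y - o) := by abel
    rw [hxy, e2, inner_neg_right, inner_sub_right, real_inner_comm (x - o) (nrm F y),
      real_inner_comm (y - o) (nrm F y)]
    ring
  have two : (2 : ℝ≥0∞) = ENNReal.ofReal 2 := by norm_num
  rcases hcurv with h | h
  · refine result hV F hF hb hreg (Or.inl hM)
      (fun x => ENNReal.ofReal ((1 - ⟪x - o, nrm F x⟫ / r) / 2))
      ((measurable_const.sub hh).div_const 2).ennreal_ofReal (Or.inl ⟨?_, ?_⟩)
    · intro x y hx hy _ _ _ _ hxy hpos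
      have h1 := hsum x y hxy
      have h2 := (abs_le.1 (hle x hx)).2
      have h3 := (abs_le.1 (hle y hy)).2
      have h4 : 0 < ⟪nrm F y, x - y⟫ / r := div_pos hpos hr
      rw [← ENNReal.ofReal_add (by linarith) (by linarith), ENNReal.one_le_ofReal]
      linarith
    · refine lt_of_le_of_lt ?_ h
      rw [← lintegral_const_mul' _ _ (by norm_num)]
      refine lintegral_mono fun x => ?_
      rw [two, ← mul_assoc, ← ENNReal.ofReal_mul (by norm_num), mul_div_cancel₀ _ (two_ne_zero),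
        ← ENNReal.ofReal_mul' (abs_nonneg _)]
  · refine result hV F hF hb hreg (Or.inl hM)
      (fun x => ENNReal.ofReal ((1 + ⟪x - o, nrm F x⟫ / r) / 2))
      ((measurable_const.add hh).div_const 2).ennreal_ofReal (Or.inr ⟨?_, ?_⟩)
    · intro x y hx hy _ _ _ _ hxy hpos
      have h1 := hsum x y hxy
      have h2 := (abs_le.1 (hle x hx)).1
      have h3 := (abs_le.1 (hle y hy)).1
      have h4 : ⟪nrm F y, x - y⟫ / r < 0 := div_neg_of_neg_of_pos hpos hr
      rw [← ENNReal.ofReal_add (by linarith) (by linarith), ENNReal.one_le_ofReal]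
      linarith
    · refine lt_of_le_of_lt ?_ h
      rw [← lintegral_const_mul' _ _ (by norm_num)]
      refine lintegral_mono fun x => ?_
      rw [two, ← mul_assoc, ← ENNReal.ofReal_mul (by norm_num), mul_div_cancel₀ _ (two_ne_zero),
        ← ENNReal.ofReal_mul' (abs_nonneg _)]

end Pool.Agent.Results.MP_6c077c_gt.FacingCurvature
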