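import Pool.Agent.H.MP_6c077c_gt.Wn.ConfW
import Pool.Agent.H.MP_6c077c_gt.PP.Curv

/-!
# The order of the saddles with one and with two descending directions (MP_6c077c_gt)

`M = {F = 0}` is the regular and bounded zero set of a smooth function `F` on a Euclidean space `V`
of dimension four; `M` is homeomorphic to the sphere (or only connected and such that every circle
valued map lifts), `W = {F ≤ 0}`, `N = ∇F / |∇F|`.

Let `w` be a point of `V` with `F w > 0`, or the point at infinity (`w = none`), and then `W` is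
bounded; so `W` is the side of `M` which does not contain `w`.  Let `a` be a unit vector.  The
spheres which are tangent at `w` to the hyperplane through `w` orthogonal to `a` (for the point at
infinity: the hyperplanes orthogonal to `a`) are the level sets of the function
`h(x) = ⟪a, x - w⟫ / |x - w|²` (for the point at infinity `h(x) = ⟪a, x⟫`).  Through a point `x` of
`M` there is exactly one sphere (or hyperplane) which contains `w` and is tangent to `M` at `x`; its
curvature with respect to `N(x)` is `k(x) = 2 ⟪N(x), x - w⟫ / |x - w|²` (`0` for the point at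
infinity).  It is tangent at `w` to the hyperplane orthogonal to the unit vector
`N'(x) = N(x) - k(x) (x - w)`.

Let `S₁` be the set of points of `M` with exactly one principal curvature less than `k(x)` and two
greater than `k(x)`, and `S₂` the set of points with at least two less than `k(x)`.  If there are no
`x` in the closure of `S₁` and `y` in the closure of `S₂` with `N'(x) = N'(y) = a` and
`h(y) ≤ h(x)` which lie in one component of the part of `W` where `h(y) ≤ h ≤ h(x)`, then `M` is carried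
onto the round sphere by a diffeomorphism of `V` with bounded support.
-/

set_option autoImplicit false

namespace Pool.Agent.Results.MP_6c077c_gt.ParallelPairs

open scoped ContDiff RealInnerProductSpace ENNReal
open Metric Set MeasureTheory Pool.Schoen

variable {V : Type*} [NormedAddCommGroup V] [InnerProductSpace ℝ V] [FiniteDimensional ℝ V]

/-- The curvature `k(x)` with respect to the normal `N = ∇F / |∇F|` of the sphere or hyperplane
which contains `w` (`none` is the point at infinity) and is tangent to `{F = 0}` at `x`. -/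
noncomputable def curv (F : V → ℝ) : Option V → V → ℝ
  | none, _ => 0
  | some w, x => 2 * ⟪‖gradient F x‖⁻¹ • gradient F x, x - w⟫ / ‖x - w‖ ^ 2

/-- The unit vector orthogonal at `w` to this sphere: the normal `N = ∇F / |∇F|` at `x` reflected in
the hyperplane orthogonal to `x - w`; for the point at infinity the normal itself. -/
noncomputable def turned (F : V → ℝ) : Option V → V → V
  | none, x => ‖gradient F x‖⁻¹ • gradient F x
  | some w, x => ‖gradient F x‖⁻¹ • gradient F x - curv F (some w) x • (x - w)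

/-- The function whose level sets are the spheres tangent at `w` to the hyperplane orthogonal to
`a`; for the point at infinity the hyperplanes orthogonal to `a`. -/
noncomputable def height (a : V) : Option V → V → ℝ
  | none, x => ⟪a, x⟫
  | some w, x => ⟪a, x - w⟫ / ‖x - w‖ ^ 2

/-- The points of `{F = 0}` with at least one principal curvature less than `k(x)` and at least two
greater than `k(x)` (in dimension four: exactly one and exactly two).  The principal curvatures are
the eigenvalues of the second derivative of `F` divided by `|∇F|` on the kernel of `DF(x)`. -/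
def oneLess (F : V → ℝ) (w : Option V) : Set V :=
  {x | F x = 0 ∧ (∃ u : V, u ≠ 0 ∧ fderiv ℝ F x u = 0 ∧
      fderiv ℝ (fderiv ℝ F) x u u / ‖gradient F x‖ < curv F w x * ‖u‖ ^ 2) ∧
    ∃ U : Submodule ℝ V, Module.finrank ℝ U = 2 ∧ ∀ u ∈ U, u ≠ 0 → fderiv ℝ F x u = 0 ∧
      curv F w x * ‖u‖ ^ 2 < fderiv ℝ (fderiv ℝ F) x u u / ‖gradient F x‖}

/-- The points of `{F = 0}` with at least two principal curvatures less than `k(x)`. -/
def twoLess (F : V → ℝ) (w : Option V) : Set V :=
  {x | F x = 0 ∧ ∃ U : Submodule ℝ V, Module.finrank ℝ U = 2 ∧ ∀ u ∈ U, u ≠ 0 →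
    fderiv ℝ F x u = 0 ∧
      fderiv ℝ (fderiv ℝ F) x u u / ‖gradient F x‖ < curv F w x * ‖u‖ ^ 2}

theorem twoLess_none {F : V → ℝ} (hreg : ∀ x, F x = 0 → gradient F x ≠ 0) :
    twoLess F none = M2 F := by
  ext x
  constructor
  · rintro ⟨hx, U, hU, h⟩
    have hg : 0 < ‖gradient F x‖ := norm_pos_iff.2 (hreg x hx)
    refine ⟨hx, U, hU, fun v hv hv0 => ⟨(h v hv hv0).1, ?_⟩⟩
    have h3 := (h v hv hv0).2
    simp only [curv, zero_mul] at h3
    by_contra hc
    exact absurd (div_nonneg (not_lt.1 hc) hg.le) (not_le.2 h3)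
  · rintro ⟨hx, U, hU, h⟩
    have hg : 0 < ‖gradient F x‖ := norm_pos_iff.2 (hreg x hx)
    refine ⟨hx, U, hU, fun v hv hv0 => ⟨(h v hv hv0).1, ?_⟩⟩
    simp only [curv, zero_mul]
    exact div_neg_of_neg_of_pos (h v hv hv0).2 hg

omit [FiniteDimensional ℝ V] in
theorem fderiv_neg_one (F : V → ℝ) (x u : V) :
    fderiv ℝ (fun z => -F z) x u = -fderiv ℝ F x u := by
  rw [fderiv_fun_neg]
  rfl

omit [FiniteDimensional ℝ V] in
theorem fderiv_neg_two (F : V → ℝ) (x u : V) :
    fderiv ℝ (fderiv ℝ fun z => -F z) x u u = -fderiv ℝ (fderiv ℝ F) x u u := by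
  have h3 : (fderiv ℝ fun z => -F z) = fun y => -fderiv ℝ F y := by
    funext y
    exact fderiv_fun_neg
  rw [h3, fderiv_fun_neg]
  rfl

theorem oneLess_none {F : V → ℝ} (hreg : ∀ x, F x = 0 → gradient F x ≠ 0) :
    oneLess F none = M21 fun z => -F z := by
  ext x
  constructor
  · rintro ⟨hx, ⟨u, hu0, hu1, hu2⟩, U, hU, h⟩
    have hg : 0 < ‖gradient F x‖ := norm_pos_iff.2 (hreg x hx)
    refine ⟨neg_eq_zero.2 hx, ⟨U, hU, fun v hv hv0 => ?_⟩, u, hu0, ?_, ?_⟩
    · rw [fderiv_neg_one, fderiv_neg_two]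
      obtain ⟨h3, h4⟩ := h v hv hv0
      refine ⟨neg_eq_zero.2 h3, ?_⟩
      simp only [curv, zero_mul] at h4
      by_contra hc
      exact absurd (div_nonpos_of_nonpos_of_nonneg (by linarith) hg.le) (not_le.2 h4)
    · rw [fderiv_neg_one]
      exact neg_eq_zero.2 hu1
    · rw [fderiv_neg_two]
      simp only [curv, zero_mul] at hu2
      by_contra hc
      exact absurd (div_nonneg (by linarith) hg.le) (not_le.2 hu2)
  · rintro ⟨hx, ⟨U, hU, h⟩, u, hu0, hu1, hu2⟩
    have hx : F x = 0 := neg_eq_zero.1 hx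
    have hg : 0 < ‖gradient F x‖ := norm_pos_iff.2 (hreg x hx)
    rw [fderiv_neg_one] at hu1
    rw [fderiv_neg_two] at hu2
    refine ⟨hx, ⟨u, hu0, neg_eq_zero.1 hu1, ?_⟩, U, hU, fun v hv hv0 => ?_⟩
    · simp only [curv, zero_mul]
      exact div_neg_of_neg_of_pos (by linarith) hg
    · obtain ⟨h3, h4⟩ := h v hv hv0
      rw [fderiv_neg_one] at h3
      rw [fderiv_neg_two] at h4
      refine ⟨neg_eq_zero.1 h3, ?_⟩
      simp only [curv, zero_mul]
      exact div_pos (by linarith) hg

theorem curv_some {F : V → ℝ} {x w : V} (hg : gradient F x ≠ 0) (hxw : x ≠ w) {A : ℝ} {u : V} :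
    (A / ‖gradient F x‖ < curv F (some w) x * ‖u‖ ^ 2 ↔
      A * ‖x - w‖ ^ 2 < 2 * fderiv ℝ F x (x - w) * ‖u‖ ^ 2) ∧
    (curv F (some w) x * ‖u‖ ^ 2 < A / ‖gradient F x‖ ↔
      2 * fderiv ℝ F x (x - w) * ‖u‖ ^ 2 < A * ‖x - w‖ ^ 2) := by
  have hg0 : 0 < ‖gradient F x‖ := norm_pos_iff.2 hg
  have hr : 0 < ‖x - w‖ ^ 2 := by
    have : 0 < ‖x - w‖ := norm_pos_iff.2 (sub_ne_zero.2 hxw)
    positivity
  have h1 : fderiv ℝ F x (x - w) = ⟪gradient F x, x - w⟫ :=
    (InnerProductSpace.toDual_symm_apply (𝕜 := ℝ)).symm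
  have h2 : curv F (some w) x * ‖u‖ ^ 2 =
      (2 * fderiv ℝ F x (x - w) * ‖u‖ ^ 2 / ‖x - w‖ ^ 2) / ‖gradient F x‖ := by
    simp only [curv]
    rw [h1, real_inner_smul_left]
    field_simp
  rw [h2]
  constructor
  · rw [div_lt_div_iff_of_pos_right hg0, lt_div_iff₀ hr]
  · rw [div_lt_div_iff_of_pos_right hg0, div_lt_iff₀ hr]

theorem twoLess_some {F : V → ℝ} (hreg : ∀ x, F x = 0 → gradient F x ≠ 0) {w : V}
    (hw : F w ≠ 0) : twoLess F (some w) = C2 F w := by
  ext x
  have hxw : F x = 0 → x ≠ w := by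
    rintro hx rfl
    exact hw hx
  constructor
  · rintro ⟨hx, U, hU, h⟩
    exact ⟨hx, U, hU, fun v hv hv0 => ⟨(h v hv hv0).1,
      (curv_some (hreg x hx) (hxw hx)).1.1 (h v hv hv0).2⟩⟩
  · rintro ⟨hx, U, hU, h⟩
    exact ⟨hx, U, hU, fun v hv hv0 => ⟨(h v hv hv0).1,
      (curv_some (hreg x hx) (hxw hx)).1.2 (h v hv hv0).2⟩⟩

theorem oneLess_some {F : V → ℝ} (hreg : ∀ x, F x = 0 → gradient F x ≠ 0) {w : V}
    (hw : F w ≠ 0) : oneLess F (some w) = C21 (fun z => -F z) w := by
  ext x
  have hxw : F x = 0 → x ≠ w := by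
    rintro hx rfl
    exact hw hx
  constructor
  · rintro ⟨hx, ⟨u, hu0, hu1, hu2⟩, U, hU, h⟩
    refine ⟨neg_eq_zero.2 hx, ⟨U, hU, fun v hv hv0 => ?_⟩, u, hu0, ?_, ?_⟩
    · obtain ⟨h3, h4⟩ := h v hv hv0
      rw [fderiv_neg_one, fderiv_neg_one, fderiv_neg_two]
      have h5 := (curv_some (hreg x hx) (hxw hx)).2.1 h4
      exact ⟨neg_eq_zero.2 h3, by linarith⟩
    · rw [fderiv_neg_one]
      exact neg_eq_zero.2 hu1
    · rw [fderiv_neg_one, fderiv_neg_two]
      have h5 := (curv_some (hreg x hx) (hxw hx)).1.1 hu2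
      linarith
  · rintro ⟨hx, ⟨U, hU, h⟩, u, hu0, hu1, hu2⟩
    have hx : F x = 0 := neg_eq_zero.1 hx
    rw [fderiv_neg_one] at hu1
    rw [fderiv_neg_one, fderiv_neg_two] at hu2
    refine ⟨hx, ⟨u, hu0, neg_eq_zero.1 hu1,
      (curv_some (hreg x hx) (hxw hx)).1.2 (by linarith)⟩, U, hU, fun v hv hv0 => ?_⟩
    obtain ⟨h3, h4⟩ := h v hv hv0
    rw [fderiv_neg_one] at h3
    rw [fderiv_neg_one, fderiv_neg_two] at h4
    exact ⟨neg_eq_zero.1 h3, (curv_some (hreg x hx) (hxw hx)).2.2 (by linarith)⟩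

omit [FiniteDimensional ℝ V] in
/-- One of the two sides of a bounded closed set is bounded. -/
theorem one_side (hV : 2 ≤ Module.finrank ℝ V) {F : V → ℝ} (hF : Continuous F)
    (hb : Bornology.IsBounded {x | F x = 0}) :
    Bornology.IsBounded {x | F x ≤ 0} ∨ Bornology.IsBounded {x | -F x ≤ 0} := by
  obtain ⟨R, hR0, hR⟩ : ∃ R : ℝ, 0 < R ∧ ∀ x, F x = 0 → ‖x‖ ≤ R := by
    obtain ⟨R, hR⟩ := hb.exists_norm_le
    exact ⟨max R 1, lt_of_lt_of_le one_pos (le_max_right _ _), fun x hx =>
      (hR x hx).trans (le_max_left _ _)⟩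
  have hrank : 1 < Module.rank ℝ V := by
    have h1 := Module.lt_rank_of_lt_finrank (R := ℝ) (M := V) (n := 1) (by omega)
    exact_mod_cast h1
  have hpre : IsPreconnected {x : V | R < ‖x‖} := by
    have h1 : {x : V | R < ‖x‖} = (fun u : V => (1 + R / ‖u‖) • u) '' {(0 : V)}ᶜ := by
      ext z
      constructor
      · intro hz
        have hz : R < ‖z‖ := hz
        have hz0 : 0 < ‖z‖ := hR0.trans hz
        have h2 : 0 < ‖z‖ - R := by linarith
        have h3 : ‖((‖z‖ - R) / ‖z‖) • z‖ = ‖z‖ - R := by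
          rw [norm_smul, Real.norm_of_nonneg (by positivity)]
          field_simp
        refine ⟨((‖z‖ - R) / ‖z‖) • z, ?_, ?_⟩
        · intro h0
          have h0 : ((‖z‖ - R) / ‖z‖) • z = 0 := h0
          rw [h0, norm_zero] at h3
          linarith
        · show (1 + R / ‖((‖z‖ - R) / ‖z‖) • z‖) • ((‖z‖ - R) / ‖z‖) • z = z
          rw [h3, smul_smul]
          have h4 : (1 + R / (‖z‖ - R)) * ((‖z‖ - R) / ‖z‖) = 1 := by
            field_simp
            ring
          rw [h4, one_smul]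
      · rintro ⟨u, hu, rfl⟩
        have hu0 : 0 < ‖u‖ := norm_pos_iff.2 hu
        show R < ‖(1 + R / ‖u‖) • u‖
        rw [norm_smul, Real.norm_of_nonneg (by positivity)]
        have h2 : (1 + R / ‖u‖) * ‖u‖ = ‖u‖ + R := by
          field_simp
        rw [h2]
        linarith
    rw [h1]
    refine (isConnected_compl_singleton_of_one_lt_rank hrank (0 : V)).isPreconnected.image _ ?_
    refine ContinuousOn.smul (continuousOn_const.add (continuousOn_const.div
      continuous_norm.continuousOn fun u hu => ?_)) continuousOn_id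
    exact norm_ne_zero_iff.2 hu
  have himg := hpre.image F hF.continuousOn
  have hne : (0 : ℝ) ∉ F '' {x : V | R < ‖x‖} := by
    rintro ⟨x, hx, hx0⟩
    have hx : R < ‖x‖ := hx
    exact absurd (hR x hx0) (not_le.2 hx)
  by_cases hpos : ∃ x : V, R < ‖x‖ ∧ 0 < F x
  · left
    obtain ⟨x0, hx0, hx1⟩ := hpos
    refine isBounded_iff_forall_norm_le.2 ⟨R, fun y hy => ?_⟩
    by_contra hcon
    have hcon : R < ‖y‖ := not_le.1 hcon
    exact hne (himg.ordConnected.out (mem_image_of_mem F hcon) (mem_image_of_mem F hx0)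
      ⟨hy, hx1.le⟩)
  · right
    refine isBounded_iff_forall_norm_le.2 ⟨R, fun y hy => ?_⟩
    have hy : -F y ≤ 0 := hy
    by_contra hcon
    have hcon : R < ‖y‖ := not_le.1 hcon
    have h1 : F y ≤ 0 := not_lt.1 fun h => hpos ⟨y, hcon, h⟩
    exact hne ⟨y, hcon, by linarith⟩

theorem result (hV : Module.finrank ℝ V = 4) (F : V → ℝ)
    (hF : ContDiff ℝ ∞ F) (hb : Bornology.IsBounded {x | F x = 0})
    (hreg : ∀ x, F x = 0 → gradient F x ≠ 0)
    (hM : Nonempty ({x : V // F x = 0} ≃ₜ sphere (0 : V) 1) ∨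
      (IsConnected {x | F x = 0} ∧
        ∀ u : V → ℂ, ContinuousOn u {x | F x = 0} → (∀ x ∈ {x | F x = 0}, ‖u x‖ = 1) →
          ∃ v : V → ℝ, ContinuousOn v {x | F x = 0} ∧
            ∀ x ∈ {x | F x = 0}, u x = Complex.exp (v x * Complex.I)))
    (w : Option V) (hw : ∀ v, w = some v → 0 < F v)
    (hw' : w = none → Bornology.IsBounded {x | F x ≤ 0}) (a : V) (ha : ‖a‖ = 1)
    (hpar : ∀ x ∈ closure (oneLess F w), ∀ y ∈ closure (twoLess F w),
      turned F w x = a → turned F w y = a → height a w y ≤ height a w x →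
        y ∉ connectedComponentIn
          {z | F z ≤ 0 ∧ height a w y ≤ height a w z ∧ height a w z ≤ height a w x} x) :
    ∃ φ ψ : V → V, ContDiff ℝ ∞ φ ∧ ContDiff ℝ ∞ ψ ∧ (∀ x, ψ (φ x) = x) ∧ (∀ x, φ (ψ x) = x) ∧
      (∃ R : ℝ, ∀ x, R ≤ ‖x‖ → φ x = x) ∧ φ '' {x | F x = 0} = sphere (0 : V) 1 := by
  have hM' : IsConnected {x | F x = 0} ∧ LiftS {x | F x = 0} := by
    rcases hM with h | h
    · exact level_top (by omega) F h
    · exact h
  cases w with
  | none =>
    rw [twoLess_none hreg, oneLess_none hreg] at hpar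
    refine ppW_carries hV F hF (hw' rfl) hreg hM'.1 hM'.2 a ha ?_
    intro x hx y hy h1 h2 h3 C hC hCs hxC hyC
    exact hpar x hx y hy h1 h2 h3 (hC.subset_connectedComponentIn hxC hCs hyC)
  | some w =>
    have hw0 : 0 < F w := hw w rfl
    rw [twoLess_some hreg hw0.ne', oneLess_some hreg hw0.ne'] at hpar
    have key : NoParWC F w a := fun x hx y hy h1 h2 h3 C hC hCs hxC hyC =>
      hpar x hx y hy h1 h2 h3 (hC.subset_connectedComponentIn hxC hCs hyC)
    rcases one_side (by omega) hF.continuous hb with h | h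
    · exact pp_confW_carries hV F hF h hreg hM'.1 hM'.2 w a ha (Or.inl ⟨hw0, key⟩)
    · have hset : {x : V | -F x = 0} = {x | F x = 0} := by
        ext x
        exact neg_eq_zero
      have hneg : (fun x => -(fun z => -F z) x) = F := by
        funext x
        exact neg_neg (F x)
      have h1 := pp_confW_carries hV (fun z => -F z) hF.neg h (fun x hx => by
        rw [gradient_neg_fun, neg_ne_zero]
        exact hreg x (neg_eq_zero.1 hx)) (by rw [hset]; exact hM'.1) (by rw [hset]; exact hM'.2)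
        w a ha (Or.inr ⟨neg_lt_zero.2 hw0, by rw [hneg]; exact key⟩)
      rw [hset] at h1
      exact h1

/-- Consequence: every point of the closure of `S₁` is strictly lower than every point of the
closure of `S₂` with the same turned normal. -/
theorem ordered (hV : Module.finrank ℝ V = 4) (F : V → ℝ)
    (hF : ContDiff ℝ ∞ F) (hb : Bornology.IsBounded {x | F x = 0})
    (hreg : ∀ x, F x = 0 → gradient F x ≠ 0)
    (hM : Nonempty ({x : V // F x = 0} ≃ₜ sphere (0 : V) 1))
    (w : Option V) (hw : ∀ v, w = some v → 0 < F v)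
    (hw' : w = none → Bornology.IsBounded {x | F x ≤ 0}) (a : V) (ha : ‖a‖ = 1)
    (hpar : ∀ x ∈ closure (oneLess F w), ∀ y ∈ closure (twoLess F w),
      turned F w x = a → turned F w y = a → height a w x < height a w y) :
    ∃ φ ψ : V → V, ContDiff ℝ ∞ φ ∧ ContDiff ℝ ∞ ψ ∧ (∀ x, ψ (φ x) = x) ∧ (∀ x, φ (ψ x) = x) ∧
      (∃ R : ℝ, ∀ x, R ≤ ‖x‖ → φ x = x) ∧ φ '' {x | F x = 0} = sphere (0 : V) 1 :=
  result hV F hF hb hreg (Or.inl hM) w hw hw' a ha fun x hx y hy h1 h2 h3 =>
    absurd (hpar x hx y hy h1 h2) (not_lt.2 h3)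

/-- Consequence: the closure of the set of points with exactly one negative (and two positive)
principal curvatures and the closure of the set of points with at least two negative principal
curvatures are strictly separated by a hyperplane. -/
theorem separated (hV : Module.finrank ℝ V = 4) (F : V → ℝ)
    (hF : ContDiff ℝ ∞ F) (hb : Bornology.IsBounded {x | F x ≤ 0})
    (hreg : ∀ x, F x = 0 → gradient F x ≠ 0)
    (hM : Nonempty ({x : V // F x = 0} ≃ₜ sphere (0 : V) 1)) (p : V) (c : ℝ)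
    (h1 : ∀ x ∈ closure (oneLess F none), ⟪p, x⟫ < c)
    (h2 : ∀ x ∈ closure (twoLess F none), c < ⟪p, x⟫) :
    ∃ φ ψ : V → V, ContDiff ℝ ∞ φ ∧ ContDiff ℝ ∞ ψ ∧ (∀ x, ψ (φ x) = x) ∧ (∀ x, φ (ψ x) = x) ∧
      (∃ R : ℝ, ∀ x, R ≤ ‖x‖ → φ x = x) ∧ φ '' {x | F x = 0} = sphere (0 : V) 1 := by
  have hnt : Nontrivial V := Module.nontrivial_of_finrank_pos (R := ℝ) (by omega)
  have hbz : Bornology.IsBounded {x | F x = 0} := hb.subset fun x hx => le_of_eq hx
  by_cases hp : p = 0
  · -- one of the two sets is empty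
    obtain ⟨e, he⟩ := exists_norm_eq V zero_le_one
    refine ordered hV F hF hbz hreg hM none (fun v hv => absurd hv (by simp)) (fun _ => hb) e he
      fun x hx y hy _ _ => ?_
    have h3 := h1 x hx
    have h4 := h2 y hy
    rw [hp, inner_zero_left] at h3 h4
    exact absurd (h3.trans h4) (lt_irrefl _)
  · have hn : 0 < ‖p‖ := norm_pos_iff.2 hp
    refine ordered hV F hF hbz hreg hM none (fun v hv => absurd hv (by simp)) (fun _ => hb)
      (‖p‖⁻¹ • p) (by rw [norm_smul, norm_inv, norm_norm, inv_mul_cancel₀ hn.ne'])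
      fun x hx y hy _ _ => ?_
    show ⟪‖p‖⁻¹ • p, x⟫ < ⟪‖p‖⁻¹ • p, y⟫
    rw [real_inner_smul_left, real_inner_smul_left]
    exact mul_lt_mul_of_pos_left ((h1 x hx).trans (h2 y hy)) (inv_pos.2 hn)

/-- Consequence: for a point `o` and a number `c` the support function `⟪x - o, N(x)⟫` is less than
`c` at the points with exactly one negative principal curvature, and not less than `c` at those
with at least two. -/
theorem support (hV : Module.finrank ℝ V = 4) (F : V → ℝ)
    (hF : ContDiff ℝ ∞ F) (hb : Bornology.IsBounded {x | F x ≤ 0})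
    (hreg : ∀ x, F x = 0 → gradient F x ≠ 0)
    (hM : Nonempty ({x : V // F x = 0} ≃ₜ sphere (0 : V) 1)) (o : V) (c : ℝ)
    (h1 : ∀ x ∈ closure (oneLess F none), ⟪x - o, nrm F x⟫ < c)
    (h2 : ∀ x ∈ closure (twoLess F none), c ≤ ⟪x - o, nrm F x⟫) :
    ∃ φ ψ : V → V, ContDiff ℝ ∞ φ ∧ ContDiff ℝ ∞ ψ ∧ (∀ x, ψ (φ x) = x) ∧ (∀ x, φ (ψ x) = x) ∧
      (∃ R : ℝ, ∀ x, R ≤ ‖x‖ → φ x = x) ∧ φ '' {x | F x = 0} = sphere (0 : V) 1 := by
  have hnt : Nontrivial V := Module.nontrivial_of_finrank_pos (R := ℝ) (by omega)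
  have hbz : Bornology.IsBounded {x | F x = 0} := hb.subset fun x hx => le_of_eq hx
  obtain ⟨e, he⟩ := exists_norm_eq V zero_le_one
  refine ordered hV F hF hbz hreg hM none (fun v hv => absurd hv (by simp)) (fun _ => hb) e he
    fun x hx y hy hnx hny => ?_
  have hnx : nrm F x = e := hnx
  have hny : nrm F y = e := hny
  have h3 := h1 x hx
  have h4 := h2 y hy
  rw [hnx, inner_sub_left] at h3
  rw [hny, inner_sub_left] at h4
  show ⟪e, x⟫ < ⟪e, y⟫
  rw [real_inner_comm x e, real_inner_comm y e]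
  linarith

/-- Consequence: weights on the reversed parallel pairs of points of nonzero Gauss-Kronecker
curvature `K = gaussK F`, one of them with exactly one and the other one with at least two negative
principal curvatures (`nneg F` counts them). -/
theorem weights [MeasurableSpace V] [BorelSpace V] (hV : Module.finrank ℝ V = 4) (F : V → ℝ)
    (hF : ContDiff ℝ ∞ F) (hb : Bornology.IsBounded {x | F x ≤ 0})
    (hreg : ∀ x, F x = 0 → gradient F x ≠ 0)
    (hM : Nonempty ({x : V // F x = 0} ≃ₜ sphere (0 : V) 1))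
    (w : V → ℝ≥0∞) (hw : Measurable w)
    (hpair : ∀ x y, F x = 0 → F y = 0 → gaussK F x ≠ 0 → gaussK F y ≠ 0 → nneg F x = 1 →
      2 ≤ nneg F y → nrm F x = nrm F y → ⟪nrm F x, y⟫ ≤ ⟪nrm F x, x⟫ → 1 ≤ w x + w y)
    (hint : ∫⁻ x in {x | F x = 0 ∧ 1 ≤ nneg F x},
      w x * ENNReal.ofReal |gaussK F x| ∂μH[3] < μH[3] (sphere (0 : V) 1)) :
    ∃ φ ψ : V → V, ContDiff ℝ ∞ φ ∧ ContDiff ℝ ∞ ψ ∧ (∀ x, ψ (φ x) = x) ∧ (∀ x, φ (ψ x) = x) ∧
      (∃ R : ℝ, ∀ x, R ≤ ‖x‖ → φ x = x) ∧ φ '' {x | F x = 0} = sphere (0 : V) 1 := by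
  have hbz : Bornology.IsBounded {x | F x = 0} := hb.subset fun x hx => le_of_eq hx
  have hK : IsCompact {x | F x = 0} := by
    have : ProperSpace V := FiniteDimensional.proper ℝ V
    exact Metric.isCompact_of_isClosed_isBounded (isClosed_eq hF.continuous continuous_const) hbz
  obtain ⟨e, he, h⟩ := noPar_of_weight hV F hF hreg hK w hw hpair hint
  refine ordered hV F hF hbz hreg hM none (fun v hv => absurd hv (by simp)) (fun _ => hb) e he ?_
  rw [twoLess_none hreg, oneLess_none hreg]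
  exact h

/-- Consequence: for a knotted `M`, every point `o` and every number `c`, the points with exactly
one negative principal curvature and support function at least `c` together with those with at least
two and support function less than `c` carry absolute curvature at least `2 π²`. -/
theorem threshold [MeasurableSpace V] [BorelSpace V] (hV : Module.finrank ℝ V = 4) (F : V → ℝ)
    (hF : ContDiff ℝ ∞ F) (hb : Bornology.IsBounded {x | F x ≤ 0})
    (hreg : ∀ x, F x = 0 → gradient F x ≠ 0)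
    (hM : Nonempty ({x : V // F x = 0} ≃ₜ sphere (0 : V) 1)) (o : V) (c : ℝ)
    (hint : ∫⁻ x in {x | F x = 0 ∧ ((nneg F x = 1 ∧ c ≤ ⟪x - o, nrm F x⟫) ∨
      (2 ≤ nneg F x ∧ ⟪x - o, nrm F x⟫ < c))}, ENNReal.ofReal |gaussK F x| ∂μH[3] <
        μH[3] (sphere (0 : V) 1)) :
    ∃ φ ψ : V → V, ContDiff ℝ ∞ φ ∧ ContDiff ℝ ∞ ψ ∧ (∀ x, ψ (φ x) = x) ∧ (∀ x, φ (ψ x) = x) ∧
      (∃ R : ℝ, ∀ x, R ≤ ‖x‖ → φ x = x) ∧ φ '' {x | F x = 0} = sphere (0 : V) 1 := by
  have hbz : Bornology.IsBounded {x | F x = 0} := hb.subset fun x hx => le_of_eq hx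
  have hK : IsCompact {x | F x = 0} := by
    have : ProperSpace V := FiniteDimensional.proper ℝ V
    exact Metric.isCompact_of_isClosed_isBounded (isClosed_eq hF.continuous continuous_const) hbz
  obtain ⟨e, he, h⟩ := noPar_of_threshold hV F hF hreg hK o c hint
  refine ordered hV F hF hbz hreg hM none (fun v hv => absurd hv (by simp)) (fun _ => hb) e he ?_
  rw [twoLess_none hreg, oneLess_none hreg]
  exact h

end Pool.Agent.Results.MP_6c077c_gt.ParallelPairs
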