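import Pool.Agent.H.MP_6c077c_gt.Ts.RelR

/-!
# Hypersurfaces in whose equation two variables enter by one function (MP_6c077c_gt)

`M = {Ψ(f(x), y) = 0}` in `ℝ² × ℝ²` (written with any linear isomorphism `e` of a four-dimensional
Euclidean space `V` with `ℂ × ℂ`), `f` an arbitrary smooth function of two real variables, `Ψ` a
smooth function with `∂Ψ/∂u ≠ 0` on `M`, `M` bounded and regular.  If `M` is homeomorphic to the
three-dimensional sphere (or only connected and such that every circle valued map lifts) then `M` is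
carried onto the round sphere by a diffeomorphism of `V` with bounded support.
Special cases: `f(x) + g(y) = 0` and `f(x) g(y) = 1` with arbitrary smooth functions `f`, `g`.
-/

set_option autoImplicit false

namespace Pool.Agent.Results.MP_6c077c_gt.PlaneSums

open scoped ContDiff RealInnerProductSpace
open Metric Set Pool.Schoen

variable {V : Type*} [NormedAddCommGroup V] [InnerProductSpace ℝ V] [FiniteDimensional ℝ V]

theorem result (hV : Module.finrank ℝ V = 4) (e : V ≃L[ℝ] ℂ × ℂ) (f : ℂ → ℝ)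
    (Ψ : ℝ × ℂ → ℝ) (hf : ContDiff ℝ ∞ f) (hΨ : ContDiff ℝ ∞ Ψ)
    (hb : Bornology.IsBounded {x : V | Ψ (f (e x).1, (e x).2) = 0})
    (hreg : ∀ x : V, Ψ (f (e x).1, (e x).2) = 0 →
      fderiv ℝ (fun y : V => Ψ (f (e y).1, (e y).2)) x ≠ 0 ∧
        fderiv ℝ Ψ (f (e x).1, (e x).2) (1, 0) ≠ 0)
    (hM : Nonempty ({x : V // Ψ (f (e x).1, (e x).2) = 0} ≃ₜ sphere (0 : V) 1) ∨
      (IsConnected {x : V | Ψ (f (e x).1, (e x).2) = 0} ∧
        ∀ u : V → ℂ, ContinuousOn u {x : V | Ψ (f (e x).1, (e x).2) = 0} →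
          (∀ x ∈ {x : V | Ψ (f (e x).1, (e x).2) = 0}, ‖u x‖ = 1) →
          ∃ v : V → ℝ, ContinuousOn v {x : V | Ψ (f (e x).1, (e x).2) = 0} ∧
            ∀ x ∈ {x : V | Ψ (f (e x).1, (e x).2) = 0}, u x = Complex.exp (v x * Complex.I))) :
    ∃ φ ψ : V → V, ContDiff ℝ ∞ φ ∧ ContDiff ℝ ∞ ψ ∧ (∀ x, ψ (φ x) = x) ∧ (∀ x, φ (ψ x) = x) ∧
      (∃ R : ℝ, ∀ x, R ≤ ‖x‖ → φ x = x) ∧
      φ '' {x : V | Ψ (f (e x).1, (e x).2) = 0} = sphere (0 : V) 1 := by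
  have hM' : IsConnected {x : V | Ψ (f (e x).1, (e x).2) = 0} ∧
      LiftS {x : V | Ψ (f (e x).1, (e x).2) = 0} := by
    rcases hM with h | h
    · exact level_top (by omega) (fun x : V => Ψ (f (e x).1, (e x).2)) h
    · exact h
  exact ts_psi hV e f Ψ hf hΨ hb (fun x hx => (hreg x hx).1) (fun x hx => (hreg x hx).2) hM'.1
    hM'.2

/-- The derivative of `u + g y` in the direction of `u`. -/
theorem fderiv_add_fun (g : ℂ → ℝ) (hg : ContDiff ℝ ∞ g) (z : ℝ × ℂ) :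
    fderiv ℝ (fun p : ℝ × ℂ => p.1 + g p.2) z (1, 0) = 1 := by
  have d1 : HasFDerivAt g (fderiv ℝ g z.2) z.2 := ((hg.differentiable (by simp)) z.2).hasFDerivAt
  have h2 := d1.comp z (hasFDerivAt_snd (𝕜 := ℝ) (E := ℝ) (F := ℂ) (p := z))
  have h : HasFDerivAt (fun p : ℝ × ℂ => p.1 + g p.2)
      (ContinuousLinearMap.fst ℝ ℝ ℂ + (fderiv ℝ g z.2).comp (ContinuousLinearMap.snd ℝ ℝ ℂ)) z :=
    hasFDerivAt_fst.add h2
  rw [h.fderiv]
  change (1 : ℝ) + fderiv ℝ g z.2 0 = 1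
  rw [map_zero, add_zero]

/-- Sums: `M = {f(x) + g(y) = 0}`. -/
theorem sum_hypersurface (hV : Module.finrank ℝ V = 4) (e : V ≃L[ℝ] ℂ × ℂ) (f g : ℂ → ℝ)
    (hf : ContDiff ℝ ∞ f) (hg : ContDiff ℝ ∞ g)
    (hb : Bornology.IsBounded {x : V | f (e x).1 + g (e x).2 = 0})
    (hreg : ∀ x : V, f (e x).1 + g (e x).2 = 0 →
      fderiv ℝ (fun y : V => f (e y).1 + g (e y).2) x ≠ 0)
    (hM : Nonempty ({x : V // f (e x).1 + g (e x).2 = 0} ≃ₜ sphere (0 : V) 1)) :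
    ∃ φ ψ : V → V, ContDiff ℝ ∞ φ ∧ ContDiff ℝ ∞ ψ ∧ (∀ x, ψ (φ x) = x) ∧ (∀ x, φ (ψ x) = x) ∧
      (∃ R : ℝ, ∀ x, R ≤ ‖x‖ → φ x = x) ∧
      φ '' {x : V | f (e x).1 + g (e x).2 = 0} = sphere (0 : V) 1 := by
  refine result hV e f (fun p => p.1 + g p.2) hf (contDiff_fst.add (hg.comp contDiff_snd)) hb
    (fun x hx => ⟨hreg x hx, ?_⟩) (Or.inl hM)
  rw [fderiv_add_fun g hg]
  exact one_ne_zero

/-- The derivative of `u * g y` in the direction of `u`. -/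
theorem fderiv_mul_fun (g : ℂ → ℝ) (hg : ContDiff ℝ ∞ g) (z : ℝ × ℂ) :
    fderiv ℝ (fun p : ℝ × ℂ => p.1 * g p.2 - 1) z (1, 0) = g z.2 := by
  have d1 : HasFDerivAt g (fderiv ℝ g z.2) z.2 := ((hg.differentiable (by simp)) z.2).hasFDerivAt
  have h2 := d1.comp z (hasFDerivAt_snd (𝕜 := ℝ) (E := ℝ) (F := ℂ) (p := z))
  have h0 := (hasFDerivAt_fst (𝕜 := ℝ) (E := ℝ) (F := ℂ) (p := z)).mul h2
  have h : HasFDerivAt (fun p : ℝ × ℂ => p.1 * g p.2 - 1)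
      (z.1 • (fderiv ℝ g z.2).comp (ContinuousLinearMap.snd ℝ ℝ ℂ) +
        g z.2 • ContinuousLinearMap.fst ℝ ℝ ℂ) z :=
    h0.sub_const 1
  rw [h.fderiv]
  change z.1 * fderiv ℝ g z.2 0 + g z.2 * 1 = g z.2
  rw [map_zero, mul_zero, zero_add, mul_one]

/-- Products: `M = {f(x) g(y) = 1}`. -/
theorem product_hypersurface (hV : Module.finrank ℝ V = 4) (e : V ≃L[ℝ] ℂ × ℂ) (f g : ℂ → ℝ)
    (hf : ContDiff ℝ ∞ f) (hg : ContDiff ℝ ∞ g)
    (hb : Bornology.IsBounded {x : V | f (e x).1 * g (e x).2 = 1})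
    (hreg : ∀ x : V, f (e x).1 * g (e x).2 = 1 →
      fderiv ℝ (fun y : V => f (e y).1 * g (e y).2) x ≠ 0)
    (hM : Nonempty ({x : V // f (e x).1 * g (e x).2 = 1} ≃ₜ sphere (0 : V) 1)) :
    ∃ φ ψ : V → V, ContDiff ℝ ∞ φ ∧ ContDiff ℝ ∞ ψ ∧ (∀ x, ψ (φ x) = x) ∧ (∀ x, φ (ψ x) = x) ∧
      (∃ R : ℝ, ∀ x, R ≤ ‖x‖ → φ x = x) ∧
      φ '' {x : V | f (e x).1 * g (e x).2 = 1} = sphere (0 : V) 1 := by
  have hset : {x : V | f (e x).1 * g (e x).2 - 1 = 0} = {x : V | f (e x).1 * g (e x).2 = 1} := by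
    ext x
    exact sub_eq_zero
  have key := result hV e f (fun p => p.1 * g p.2 - 1) hf
    ((contDiff_fst.mul (hg.comp contDiff_snd)).sub contDiff_const) (by
      change Bornology.IsBounded {x : V | f (e x).1 * g (e x).2 - 1 = 0}
      rw [hset]
      exact hb) (fun x hx => ?_) (Or.inl (hM.map fun h => (Homeomorph.setCongr hset).trans h))
  · change ∃ φ ψ : V → V, ContDiff ℝ ∞ φ ∧ ContDiff ℝ ∞ ψ ∧ (∀ x, ψ (φ x) = x) ∧
      (∀ x, φ (ψ x) = x) ∧ (∃ R : ℝ, ∀ x, R ≤ ‖x‖ → φ x = x) ∧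
      φ '' {x : V | f (e x).1 * g (e x).2 - 1 = 0} = sphere (0 : V) 1 at key
    rw [hset] at key
    exact key
  · have hx' : f (e x).1 * g (e x).2 = 1 := sub_eq_zero.1 hx
    refine ⟨?_, ?_⟩
    · have h1 : fderiv ℝ (fun y : V => f (e y).1 * g (e y).2 - 1) x =
          fderiv ℝ (fun y : V => f (e y).1 * g (e y).2) x := fderiv_sub_const 1
      exact fun h => hreg x hx' (h1 ▸ h)
    · rw [fderiv_mul_fun g hg]
      exact right_ne_zero_of_mul (by rw [hx']; exact one_ne_zero)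

end Pool.Agent.Results.MP_6c077c_gt.PlaneSums
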