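import Pool.Agent.H.MP_6c077c_gt.F3.ClosV
import Pool.Agent.H.MP_6c077c_gt.F3.SphConf
import Pool.Agent.H.MP_6c077c_gt.F2.FinalC
import Pool.Agent.H.MP_6c077c_gt.F2.Conf3
import Pool.Agent.H.MP_6c077c_gt.F2.ConfHyp
import Pool.Agent.H.MP_6c077c_gt.F2.Cor
import Pool.Agent.H.MP_6c077c_gt.F2.Curv

/-!
# Facing pairs of saddles for all pencils of mutually tangent spheres (MP_6c077c_gt)

`M = {F = 0}` is the regular zero set of a smooth function `F` on a Euclidean space `V` of
dimension four, with `W = {F ≤ 0}` bounded; `M` is homeomorphic to the sphere (or only connected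
and such that every circle valued map lifts), `N = ∇F / |∇F|` is the outer normal.

Let `w` be a point of `V` which is not on `M`, or the point at infinity (`w = none`), and let `a` be
a unit vector.  The spheres which are tangent at `w` to the hyperplane through `w` orthogonal to `a`
(for the point at infinity: the hyperplanes orthogonal to `a`) are the level sets of the function
`h(x) = ⟪a, x - w⟫ / |x - w|²` (for the point at infinity `h(x) = ⟪a, x⟫`).  Through a point `x` of
`M` there is exactly one sphere (or hyperplane) which contains `w` and is tangent to `M` at `x`; its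
curvature with respect to `N(x)` is `k(x) = 2 ⟪N(x), x - w⟫ / |x - w|²` (`0` for the point at
infinity).  It is tangent at `w` to the hyperplane orthogonal to the unit vector
`N'(x) = N(x) - k(x) (x - w)`.

Let `S` be the set of points of `M` with exactly two principal curvatures less than `k(x)` and one
greater than `k(x)`, and `S'` the set of points with one less and two greater.  Let `L` be a finite
set (possibly empty) of noncritical levels of the function `h` on `M` for which all the components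
of `M ∩ {h = c}` are `2`-spheres.  If for every interval `I` between consecutive levels of `L` there
are no `x, y` in the closure of `S` with `N'(x) = -a`, `N'(y) = a`, `h(x) > h(y)`, `h(x), h(y)` in
`I`, or no `x, y` in the closure of `S'` with `N'(x) = a`, `N'(y) = -a`, `h(x) > h(y)`,
`h(x), h(y)` in `I`, then `M` is carried onto the round sphere by a diffeomorphism of `V` with
bounded support.
-/

set_option autoImplicit false

namespace Pool.Agent.Results.MP_6c077c_gt.SaddlePencils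

open scoped ContDiff RealInnerProductSpace
open Metric Set Pool.Schoen

variable {V : Type*} [NormedAddCommGroup V] [InnerProductSpace ℝ V] [FiniteDimensional ℝ V]

/-- The curvature `k(x)` with respect to the normal `N = ∇F / |∇F|` of the sphere or hyperplane
which contains `w` (`none` is the point at infinity) and is tangent to `{F = 0}` at `x`. -/
noncomputable def curv (F : V → ℝ) : Option V → V → ℝ
  | none, _ => 0
  | some w, x => 2 * ⟪‖gradient F x‖⁻¹ • gradient F x, x - w⟫ / ‖x - w‖ ^ 2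

/-- The unit vector orthogonal at `w` to this sphere: the normal `N = ∇F / |∇F|` at `x` reflected in
the hyperplane orthogonal to `x - w`; for the point at infinity the normal itself. -/
noncomputable def turned (F : V → ℝ) : Option V → V → V
  | none, x => ‖gradient F x‖⁻¹ • gradient F x
  | some w, x => ‖gradient F x‖⁻¹ • gradient F x - curv F (some w) x • (x - w)

/-- The function whose level sets are the spheres tangent at `w` to the hyperplane orthogonal to
`a`; for the point at infinity the hyperplanes orthogonal to `a`. -/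
noncomputable def height (a : V) : Option V → V → ℝ
  | none, x => ⟪a, x⟫
  | some w, x => ⟪a, x - w⟫ / ‖x - w‖ ^ 2

/-- The points of `{F = 0}` with at least two principal curvatures less than `k(x)` and at least one
greater than `k(x)` (in dimension four: exactly two and exactly one).  The principal curvatures are
the eigenvalues of the second derivative of `F` divided by `|∇F|` on the kernel of `DF(x)`. -/
def saddles (F : V → ℝ) (w : Option V) : Set V :=
  {x | F x = 0 ∧ (∃ U : Submodule ℝ V, Module.finrank ℝ U = 2 ∧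
    ∀ u ∈ U, u ≠ 0 → fderiv ℝ F x u = 0 ∧
      fderiv ℝ (fderiv ℝ F) x u u / ‖gradient F x‖ < curv F w x * ‖u‖ ^ 2) ∧
    ∃ u : V, u ≠ 0 ∧ fderiv ℝ F x u = 0 ∧
      curv F w x * ‖u‖ ^ 2 < fderiv ℝ (fderiv ℝ F) x u u / ‖gradient F x‖}

/-- `s` and `t` lie in the same interval between consecutive points of `L`. -/
def Same (L : Set ℝ) (s t : ℝ) : Prop := ∀ c ∈ L, s < c ↔ t < c

theorem saddles_none {F : V → ℝ} (hreg : ∀ x, F x = 0 → gradient F x ≠ 0) :
    saddles F none = M21 F := by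
  ext x
  constructor
  · rintro ⟨hx, ⟨U, hU, h⟩, u, hu, h1, h2⟩
    have hg : 0 < ‖gradient F x‖ := norm_pos_iff.2 (hreg x hx)
    refine ⟨hx, ⟨U, hU, fun v hv hv0 => ⟨(h v hv hv0).1, ?_⟩⟩, u, hu, h1, ?_⟩
    · have h3 := (h v hv hv0).2
      simp only [curv, zero_mul] at h3
      by_contra hc
      exact absurd (div_nonneg (not_lt.1 hc) hg.le) (not_le.2 h3)
    · simp only [curv, zero_mul] at h2
      by_contra hc
      exact absurd (div_nonpos_of_nonpos_of_nonneg (not_lt.1 hc) hg.le) (not_le.2 h2)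
  · rintro ⟨hx, ⟨U, hU, h⟩, u, hu, h1, h2⟩
    have hg : 0 < ‖gradient F x‖ := norm_pos_iff.2 (hreg x hx)
    refine ⟨hx, ⟨U, hU, fun v hv hv0 => ⟨(h v hv hv0).1, ?_⟩⟩, u, hu, h1, ?_⟩
    · simp only [curv, zero_mul]
      exact div_neg_of_neg_of_pos (h v hv hv0).2 hg
    · simp only [curv, zero_mul]
      exact div_pos h2 hg

theorem curv_some {F : V → ℝ} {x w : V} (hg : gradient F x ≠ 0) (hxw : x ≠ w) {A : ℝ} {u : V} :
    (A / ‖gradient F x‖ < curv F (some w) x * ‖u‖ ^ 2 ↔
      A * ‖x - w‖ ^ 2 < 2 * fderiv ℝ F x (x - w) * ‖u‖ ^ 2) ∧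
    (curv F (some w) x * ‖u‖ ^ 2 < A / ‖gradient F x‖ ↔
      2 * fderiv ℝ F x (x - w) * ‖u‖ ^ 2 < A * ‖x - w‖ ^ 2) := by
  have hg0 : 0 < ‖gradient F x‖ := norm_pos_iff.2 hg
  have hr : 0 < ‖x - w‖ ^ 2 := by
    have : 0 < ‖x - w‖ := norm_pos_iff.2 (sub_ne_zero.2 hxw)
    positivity
  have h1 : fderiv ℝ F x (x - w) = ⟪gradient F x, x - w⟫ :=
    (InnerProductSpace.toDual_symm_apply (𝕜 := ℝ)).symm
  have h2 : curv F (some w) x * ‖u‖ ^ 2 =
      (2 * fderiv ℝ F x (x - w) * ‖u‖ ^ 2 / ‖x - w‖ ^ 2) / ‖gradient F x‖ := by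
    simp only [curv]
    rw [h1, real_inner_smul_left]
    field_simp
  rw [h2]
  constructor
  · rw [div_lt_div_iff_of_pos_right hg0, lt_div_iff₀ hr]
  · rw [div_lt_div_iff_of_pos_right hg0, div_lt_iff₀ hr]

theorem saddles_some {F : V → ℝ} (hreg : ∀ x, F x = 0 → gradient F x ≠ 0) {w : V}
    (hw : F w ≠ 0) : saddles F (some w) = C21 F w := by
  ext x
  have hxw : F x = 0 → x ≠ w := by
    rintro hx rfl
    exact hw hx
  constructor
  · rintro ⟨hx, ⟨U, hU, h⟩, u, hu, h1, h2⟩
    exact ⟨hx, ⟨U, hU, fun v hv hv0 => ⟨(h v hv hv0).1,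
      (curv_some (hreg x hx) (hxw hx)).1.1 (h v hv hv0).2⟩⟩, u, hu, h1,
      (curv_some (hreg x hx) (hxw hx)).2.1 h2⟩
  · rintro ⟨hx, ⟨U, hU, h⟩, u, hu, h1, h2⟩
    exact ⟨hx, ⟨U, hU, fun v hv hv0 => ⟨(h v hv hv0).1,
      (curv_some (hreg x hx) (hxw hx)).1.2 (h v hv hv0).2⟩⟩, u, hu, h1,
      (curv_some (hreg x hx) (hxw hx)).2.2 h2⟩

theorem turned_some (F : V → ℝ) (w x : V) : turned F (some w) x = cNrm F w x := rfl

theorem turned_neg (F : V → ℝ) (w : V) (x : V) :
    cNrm (fun z => -F z) w x = -turned F (some w) x := by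
  rw [turned_some, cNrm, cNrm, nrm_neg_fun]
  simp only [inner_neg_left, mul_neg, neg_div, neg_smul]
  abel

theorem reg_neg {F : V → ℝ} (hreg : ∀ x, F x = 0 → gradient F x ≠ 0) :
    ∀ x, -F x = 0 → gradient (fun z => -F z) x ≠ 0 := by
  intro x hx
  rw [gradient_neg_fun, neg_ne_zero]
  exact hreg x (neg_eq_zero.1 hx)

theorem result (hV : Module.finrank ℝ V = 4) (F : V → ℝ)
    (hF : ContDiff ℝ ∞ F) (hb : Bornology.IsBounded {x | F x ≤ 0})
    (hreg : ∀ x, F x = 0 → gradient F x ≠ 0)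
    (hM : Nonempty ({x : V // F x = 0} ≃ₜ sphere (0 : V) 1) ∨
      (IsConnected {x | F x = 0} ∧
        ∀ u : V → ℂ, ContinuousOn u {x | F x = 0} → (∀ x ∈ {x | F x = 0}, ‖u x‖ = 1) →
          ∃ v : V → ℝ, ContinuousOn v {x | F x = 0} ∧
            ∀ x ∈ {x | F x = 0}, u x = Complex.exp (v x * Complex.I)))
    (w : Option V) (hw : ∀ v, w = some v → F v ≠ 0) (a : V) (ha : ‖a‖ = 1)
    (L : Set ℝ) (hL : L.Finite)
    (hlev : ∀ x, F x = 0 → turned F w x = a ∨ turned F w x = -a → height a w x ∉ L)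
    (hsph : ∀ c ∈ L, ∀ x, F x = 0 → height a w x = c →
      Nonempty (connectedComponentIn {y | F y = 0 ∧ height a w y = c} x ≃ₜ
        sphere (0 : EuclideanSpace ℝ (Fin 3)) 1))
    (hface : ∀ t, t ∉ L →
      (∀ x ∈ closure (saddles F w), ∀ y ∈ closure (saddles F w),
        turned F w x = -a → turned F w y = a →
          Same L (height a w x) t → Same L (height a w y) t →
            height a w x ≤ height a w y) ∨
      (∀ x ∈ closure (saddles (fun z => -F z) w), ∀ y ∈ closure (saddles (fun z => -F z) w),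
        turned F w x = a → turned F w y = -a →
          Same L (height a w x) t → Same L (height a w y) t →
            height a w x ≤ height a w y)) :
    ∃ φ ψ : V → V, ContDiff ℝ ∞ φ ∧ ContDiff ℝ ∞ ψ ∧ (∀ x, ψ (φ x) = x) ∧ (∀ x, φ (ψ x) = x) ∧
      (∃ R : ℝ, ∀ x, R ≤ ‖x‖ → φ x = x) ∧ φ '' {x | F x = 0} = sphere (0 : V) 1 := by
  have hM' : IsConnected {x | F x = 0} ∧ LiftS {x | F x = 0} := by
    rcases hM with h | h
    · exact level_top (by omega) F h
    · exact h
  have hnt : Nontrivial V := Module.nontrivial_of_finrank_pos (R := ℝ) (by omega)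
  cases w with
  | none =>
    have hnorm : ∀ x, Inward F a x → nrm F x = -a := by
      rintro x ⟨-, l, hl, h⟩
      rw [nrm, h, norm_neg, norm_smul, ha, mul_one, Real.norm_of_nonneg hl.le, smul_neg, smul_smul,
        inv_mul_cancel₀ hl.ne', one_smul]
    have hnorm' : ∀ x, Inward F (-a) x → nrm F x = a := by
      rintro x ⟨-, l, hl, h⟩
      rw [nrm, h, norm_neg, norm_smul, norm_neg, ha, mul_one, Real.norm_of_nonneg hl.le, smul_neg,
        smul_neg, smul_neg, neg_neg, smul_smul, inv_mul_cancel₀ hl.ne', one_smul]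
    have hlev' : ∀ x, Crit F a x → ⟪a, x⟫ ∉ L := by
      intro x hx
      refine hlev x hx.1 ?_
      rcases (crit_iff ha hreg x).1 hx with h | h
      · exact Or.inr (hnorm x h)
      · exact Or.inl (hnorm' x h)
    have hbz : Bornology.IsBounded {x | F x = 0} := hb.subset fun x hx => le_of_eq hx
    refine carries_of_isBall F hF (Rd.isBall (f3_rd hV hF hbz hreg hM'.1 hM'.2 ha hL hlev'
      (fun c hc => sph_lift hF ha (fun x hx hxc => hlev' x hx (by rw [hxc]; exact hc))
        (fun x hx hxc => hsph c hc x hx hxc)) fun t ht => ?_) hb)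
    rw [saddles_none hreg, saddles_none (F := fun z => -F z) (reg_neg hreg)] at hface
    rcases hface t ht with h | h
    · exact Or.inl fun x hx y hy h1 h2 h3 h4 => h x hx y hy h1 h2 h3 h4
    · refine Or.inr fun x hx y hy h1 h2 h3 h4 => h x hx y hy ?_ ?_ h3 h4
      · rw [nrm_neg_fun] at h1
        exact neg_injective h1
      · rw [nrm_neg_fun] at h2
        exact neg_eq_iff_eq_neg.1 h2
  | some w =>
    have hw' : F w ≠ 0 := hw w rfl
    rw [saddles_some hreg hw', saddles_some (F := fun z => -F z) (reg_neg hreg)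
      (neg_ne_zero.2 hw')] at hface
    refine conf_slab_of F hF hb hreg hM'.1 hM'.2 w a hw' ha hL hlev (fun c hc =>
      sph_lift_conf hF hb hreg hw' ha (fun x hx hxa hxc => hlev x hx hxa (by
        show cHt w a x ∈ L
        rw [hxc]
        exact hc)) (fun x hx hxc => hsph c hc x hx hxc))
      (fun t ht => ?_) fun G L hG hGb hGreg hGc hGl hL hcL hsL hGf =>
        f3_rd hV hG hGb hGreg hGc hGl ha hL hcL hsL hGf
    rcases hface t ht with h | h
    · exact Or.inl fun x hx y hy h1 h2 h3 h4 => h x hx y hy h1 h2 h3 h4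
    · refine Or.inr fun x hx y hy h1 h2 h3 h4 => h x hx y hy ?_ ?_ h3 h4
      · rw [turned_neg] at h1
        exact neg_injective h1
      · rw [turned_neg] at h2
        exact neg_eq_iff_eq_neg.1 h2

/-- The case without levels: if one pencil of mutually tangent spheres (or parallel hyperplanes) has
no facing pair on one of the two sides, then `M` is unknotted. -/
theorem one_pencil (hV : Module.finrank ℝ V = 4) (F : V → ℝ)
    (hF : ContDiff ℝ ∞ F) (hb : Bornology.IsBounded {x | F x ≤ 0})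
    (hreg : ∀ x, F x = 0 → gradient F x ≠ 0)
    (hM : Nonempty ({x : V // F x = 0} ≃ₜ sphere (0 : V) 1) ∨
      (IsConnected {x | F x = 0} ∧
        ∀ u : V → ℂ, ContinuousOn u {x | F x = 0} → (∀ x ∈ {x | F x = 0}, ‖u x‖ = 1) →
          ∃ v : V → ℝ, ContinuousOn v {x | F x = 0} ∧
            ∀ x ∈ {x | F x = 0}, u x = Complex.exp (v x * Complex.I)))
    (w : Option V) (hw : ∀ v, w = some v → F v ≠ 0) (a : V) (ha : ‖a‖ = 1)
    (hface : (∀ x ∈ closure (saddles F w), ∀ y ∈ closure (saddles F w),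
        turned F w x = -a → turned F w y = a → height a w x ≤ height a w y) ∨
      (∀ x ∈ closure (saddles (fun z => -F z) w), ∀ y ∈ closure (saddles (fun z => -F z) w),
        turned F w x = a → turned F w y = -a → height a w x ≤ height a w y)) :
    ∃ φ ψ : V → V, ContDiff ℝ ∞ φ ∧ ContDiff ℝ ∞ ψ ∧ (∀ x, ψ (φ x) = x) ∧ (∀ x, φ (ψ x) = x) ∧
      (∃ R : ℝ, ∀ x, R ≤ ‖x‖ → φ x = x) ∧ φ '' {x | F x = 0} = sphere (0 : V) 1 := by
  refine result hV F hF hb hreg hM w hw a ha ∅ finite_empty (fun x _ _ => notMem_empty _)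
    (fun c hc => absurd hc (notMem_empty c)) fun t _ => ?_
  rcases hface with h | h
  · exact Or.inl fun x hx y hy h1 h2 _ _ => h x hx y hy h1 h2
  · exact Or.inr fun x hx y hy h1 h2 _ _ => h x hx y hy h1 h2

/-- Consequence: if `M` is not unknotted, every point `w` of the complement of `M` (and the point at
infinity) lies on a sphere or hyperplane which is tangent to `M` at some point `x` and has exactly
two principal curvatures of `M` at `x` below its own curvature; and on one which has exactly one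
below and two above. -/
theorem tangent_spheres (hV : Module.finrank ℝ V = 4) (F : V → ℝ)
    (hF : ContDiff ℝ ∞ F) (hb : Bornology.IsBounded {x | F x ≤ 0})
    (hreg : ∀ x, F x = 0 → gradient F x ≠ 0)
    (hM : Nonempty ({x : V // F x = 0} ≃ₜ sphere (0 : V) 1) ∨
      (IsConnected {x | F x = 0} ∧
        ∀ u : V → ℂ, ContinuousOn u {x | F x = 0} → (∀ x ∈ {x | F x = 0}, ‖u x‖ = 1) →
          ∃ v : V → ℝ, ContinuousOn v {x | F x = 0} ∧
            ∀ x ∈ {x | F x = 0}, u x = Complex.exp (v x * Complex.I)))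
    (w : Option V) (hw : ∀ v, w = some v → F v ≠ 0)
    (h : saddles F w = ∅ ∨ saddles (fun z => -F z) w = ∅) :
    ∃ φ ψ : V → V, ContDiff ℝ ∞ φ ∧ ContDiff ℝ ∞ ψ ∧ (∀ x, ψ (φ x) = x) ∧ (∀ x, φ (ψ x) = x) ∧
      (∃ R : ℝ, ∀ x, R ≤ ‖x‖ → φ x = x) ∧ φ '' {x | F x = 0} = sphere (0 : V) 1 := by
  have : Nontrivial V := Module.nontrivial_of_finrank_pos (R := ℝ) (by omega)
  obtain ⟨a, ha⟩ := exists_norm_eq V zero_le_one
  refine one_pencil hV F hF hb hreg hM w hw a ha ?_
  rcases h with h | h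
  · left
    rw [h, closure_empty]
    exact fun x hx => absurd hx (notMem_empty x)
  · right
    rw [h, closure_empty]
    exact fun x hx => absurd hx (notMem_empty x)

/-- The radius of the sphere with center `x + r • N` (`r` the radius) which is tangent from inside
to the unit sphere; a horosphere through `x` of the Poincare ball. -/
noncomputable def horoRadius (N x : V) : ℝ := (1 - ‖x‖ ^ 2) / (2 * (1 + ⟪x, N⟫))

/-- The hyperbolic Gauss map of `{F = 0}`: the point where the sphere of radius `r` about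
`x + r • nrm F x`, `r = horoRadius (nrm F x) x`, touches the unit sphere.  It is the end point of
the hyperbolic geodesic ray which starts at `x` in the direction of the outer normal `nrm F x`. -/
noncomputable def hypGauss (F : V → ℝ) (x : V) : V :=
  ‖x + horoRadius (nrm F x) x • nrm F x‖⁻¹ • (x + horoRadius (nrm F x) x • nrm F x)

/-- The number (with multiplicities) of hyperbolic principal curvatures of `{F = 0}` at `x` which
are less than `-1`: the principal curvature `r` for the Euclidean metric is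
`(1 - |x|²) / 2 * r + ⟪x, nrm F x⟫` for the metric `4 |dx|² / (1 - |x|²)²` of the unit ball. -/
noncomputable def hypLow (F : V → ℝ) (x : V) : ℕ :=
  Multiset.card ((LinearMap.charpoly (shape F x : V →ₗ[ℝ] V)).roots.filter
    fun r => (1 - ‖x‖ ^ 2) / 2 * r + ⟪x, nrm F x⟫ < -1)

/-- Consequence: `W` in the Poincare ball model of the hyperbolic space; if for some ideal point `v`
every point of `M` whose hyperbolic Gauss image is near `v` has at most one hyperbolic principal
curvature less than `-1`, then `M` is unknotted. -/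
theorem hyperbolic (hV : Module.finrank ℝ V = 4) (F : V → ℝ)
    (hF : ContDiff ℝ ∞ F) (hb : ∀ x, F x ≤ 0 → ‖x‖ < 1)
    (hreg : ∀ x, F x = 0 → gradient F x ≠ 0)
    (hM : Nonempty ({x : V // F x = 0} ≃ₜ sphere (0 : V) 1) ∨
      (IsConnected {x | F x = 0} ∧
        ∀ u : V → ℂ, ContinuousOn u {x | F x = 0} → (∀ x ∈ {x | F x = 0}, ‖u x‖ = 1) →
          ∃ v : V → ℝ, ContinuousOn v {x | F x = 0} ∧
            ∀ x ∈ {x | F x = 0}, u x = Complex.exp (v x * Complex.I)))
    (v : V) (hv : ‖v‖ = 1) (δ : ℝ) (hδ : 0 < δ)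
    (hcurv : ∀ x, F x = 0 → ‖hypGauss F x - v‖ < δ → hypLow F x ≤ 1) :
    ∃ φ ψ : V → V, ContDiff ℝ ∞ φ ∧ ContDiff ℝ ∞ ψ ∧ (∀ x, ψ (φ x) = x) ∧ (∀ x, φ (ψ x) = x) ∧
      (∃ R : ℝ, ∀ x, R ≤ ‖x‖ → φ x = x) ∧ φ '' {x | F x = 0} = sphere (0 : V) 1 := by
  obtain ⟨w', hw', hn⟩ := hyp_noFaceC (n := 3) hV F hF hb hreg v hv δ hδ (by
    intro x hx hxw
    have e1 : ∀ N : V, hRad 1 N x = horoRadius N x := fun N => by
      rw [hRad, horoRadius, one_pow]
    have e2 : hGau 1 (nrm F x) x = hypGauss F x := by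
      rw [hGau, hypGauss, e1]
    rw [e2] at hxw
    have h1 := hcurv x hx hxw
    have hx1 := hb x (le_of_eq hx)
    have hx0 := norm_nonneg x
    have hN := norm_nrm F x (hreg x hx)
    have h2 : 0 < 1 - ‖x‖ ^ 2 := by nlinarith
    have h3 : 0 < 1 + ⟪x, nrm F x⟫ := by
      have := (abs_le.1 (abs_real_inner_le_norm x (nrm F x))).1
      rw [hN, mul_one] at this
      linarith
    have h4 : (fun r : ℝ => r < -(hRad 1 (nrm F x) x)⁻¹) =
        fun r : ℝ => (1 - ‖x‖ ^ 2) / 2 * r + ⟪x, nrm F x⟫ < -1 := by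
      funext r
      rw [e1, horoRadius, inv_div, eq_iff_iff, ← neg_div, lt_div_iff₀ h2]
      constructor
      · intro h
        linarith
      · intro h
        linarith
    unfold nlow
    unfold hypLow at h1
    simp only [h4]
    exact h1)
  have hbd : Bornology.IsBounded {x | F x ≤ 0} :=
    (isBounded_ball (x := (0 : V)) (r := 1)).subset fun x hx => by
      rw [mem_ball_zero_iff]
      exact hb x hx
  refine one_pencil hV F hF hbd hreg hM (some w') (fun u hu => ?_) v hv (Or.inl ?_)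
  · rw [← Option.some.inj hu]
    exact hw'.ne'
  · rw [saddles_some hreg hw'.ne']
    exact hn

/-- Consequence: four guards, more generally guards in a hyperplane.  The guards `q ∈ Q` only have
to see the points of `saddles F none` (two negative and one positive principal curvature) from
inside `W = {F ≤ 0}`. -/
theorem four_guards (hV : Module.finrank ℝ V = 4) (F : V → ℝ)
    (hF : ContDiff ℝ ∞ F) (hb : Bornology.IsBounded {x | F x ≤ 0})
    (hreg : ∀ x, F x = 0 → gradient F x ≠ 0)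
    (hM : Nonempty ({x : V // F x = 0} ≃ₜ sphere (0 : V) 1))
    (Q : Set V) (hQ : Bornology.IsBounded Q) (hQ3 : Module.finrank ℝ (vectorSpan ℝ Q) ≤ 3)
    (hvis : ∀ x ∈ saddles F none, ∃ q ∈ Q, segment ℝ q x ⊆ {y | F y ≤ 0}) :
    ∃ φ ψ : V → V, ContDiff ℝ ∞ φ ∧ ContDiff ℝ ∞ ψ ∧ (∀ x, ψ (φ x) = x) ∧ (∀ x, φ (ψ x) = x) ∧
      (∃ R : ℝ, ∀ x, R ≤ ‖x‖ → φ x = x) ∧ φ '' {x | F x = 0} = sphere (0 : V) 1 := by
  obtain ⟨e, he, h⟩ := exists_noFaceC_of_guards F hF (saddles F none) Q hQ (by omega)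
    fun x hx => by
      obtain ⟨q, hq, hs⟩ := hvis x hx
      exact ⟨q, hq, gd_of_segment F hF hx.1 hs⟩
  exact one_pencil hV F hF hb hreg (Or.inl hM) none (fun v hv => by cases hv) e he (Or.inl h)

/-- The condition outside, for parallel hyperplanes, in terms of the normal of `-F`. -/
theorem outside {F : V → ℝ} {e : V} (h : ∀ x ∈ closure (saddles (fun z => -F z) none),
    ∀ y ∈ closure (saddles (fun z => -F z) none), nrm (fun z => -F z) x = -e →
      nrm (fun z => -F z) y = e → ⟪e, x⟫ ≤ ⟪e, y⟫) :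
    ∀ x ∈ closure (saddles (fun z => -F z) none), ∀ y ∈ closure (saddles (fun z => -F z) none),
      turned F none x = e → turned F none y = -e → height e none x ≤ height e none y := by
  intro x hx y hy h1 h2
  refine h x hx y hy ?_ ?_
  · rw [nrm_neg_fun]
    exact congrArg Neg.neg h1
  · rw [nrm_neg_fun]
    exact neg_eq_iff_eq_neg.2 h2

/-- Consequence: guards outside, in a hyperplane. -/
theorem four_guards_outside (hV : Module.finrank ℝ V = 4) (F : V → ℝ)
    (hF : ContDiff ℝ ∞ F) (hb : Bornology.IsBounded {x | F x ≤ 0})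
    (hreg : ∀ x, F x = 0 → gradient F x ≠ 0)
    (hM : Nonempty ({x : V // F x = 0} ≃ₜ sphere (0 : V) 1))
    (Q : Set V) (hQ : Bornology.IsBounded Q) (hQ3 : Module.finrank ℝ (vectorSpan ℝ Q) ≤ 3)
    (hvis : ∀ x ∈ saddles (fun z => -F z) none, ∃ q ∈ Q, segment ℝ q x ⊆ {y | 0 ≤ F y}) :
    ∃ φ ψ : V → V, ContDiff ℝ ∞ φ ∧ ContDiff ℝ ∞ ψ ∧ (∀ x, ψ (φ x) = x) ∧ (∀ x, φ (ψ x) = x) ∧
      (∃ R : ℝ, ∀ x, R ≤ ‖x‖ → φ x = x) ∧ φ '' {x | F x = 0} = sphere (0 : V) 1 := by
  obtain ⟨e, he, h⟩ := exists_noFaceC_of_guards (fun z => -F z) hF.neg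
    (saddles (fun z => -F z) none) Q hQ (by omega) fun x hx => by
      obtain ⟨q, hq, hs⟩ := hvis x hx
      refine ⟨q, hq, gd_of_segment _ hF.neg hx.1 fun y hy => ?_⟩
      have h0 : 0 ≤ F y := hs hy
      show -F y ≤ 0
      linarith
  exact one_pencil hV F hF hb hreg (Or.inl hM) none (fun v hv => by cases hv) e he
    (Or.inr (outside h))

/-- Consequence: a two point theorem of Krasnosel'skii type. -/
theorem two_points (hV : Module.finrank ℝ V = 4) (F : V → ℝ)
    (hF : ContDiff ℝ ∞ F) (hb : Bornology.IsBounded {x | F x ≤ 0})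
    (hreg : ∀ x, F x = 0 → gradient F x ≠ 0)
    (hM : Nonempty ({x : V // F x = 0} ≃ₜ sphere (0 : V) 1))
    (hvis : ∀ x ∈ saddles F none, ∀ y ∈ saddles F none,
      ∃ q, segment ℝ q x ⊆ {z | F z ≤ 0} ∧ segment ℝ q y ⊆ {z | F z ≤ 0}) :
    ∃ φ ψ : V → V, ContDiff ℝ ∞ φ ∧ ContDiff ℝ ∞ ψ ∧ (∀ x, ψ (φ x) = x) ∧ (∀ x, φ (ψ x) = x) ∧
      (∃ R : ℝ, ∀ x, R ≤ ‖x‖ → φ x = x) ∧ φ '' {x | F x = 0} = sphere (0 : V) 1 := by
  have : Nontrivial V := Module.nontrivial_of_finrank_pos (R := ℝ) (by omega)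
  obtain ⟨e, he⟩ := exists_norm_eq V zero_le_one
  obtain ⟨R, hR⟩ := hb.exists_norm_le
  refine one_pencil hV F hF hb hreg (Or.inl hM) none (fun v hv => by cases hv) e he (Or.inl ?_)
  refine noFaceC_of_segments F hF (saddles F none) (fun x hx => hx.1) R ?_ e
  intro x hx y hy
  obtain ⟨q, h1, h2⟩ := hvis x hx y hy
  exact ⟨q, hR q (h1 (left_mem_segment ℝ q x)), h1, h2⟩

/-- Consequence: the two point theorem outside. -/
theorem two_points_outside (hV : Module.finrank ℝ V = 4) (F : V → ℝ)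
    (hF : ContDiff ℝ ∞ F) (hb : Bornology.IsBounded {x | F x ≤ 0})
    (hreg : ∀ x, F x = 0 → gradient F x ≠ 0)
    (hM : Nonempty ({x : V // F x = 0} ≃ₜ sphere (0 : V) 1)) (R : ℝ)
    (hvis : ∀ x ∈ saddles (fun z => -F z) none, ∀ y ∈ saddles (fun z => -F z) none,
      ∃ q, ‖q‖ ≤ R ∧ segment ℝ q x ⊆ {z | 0 ≤ F z} ∧ segment ℝ q y ⊆ {z | 0 ≤ F z}) :
    ∃ φ ψ : V → V, ContDiff ℝ ∞ φ ∧ ContDiff ℝ ∞ ψ ∧ (∀ x, ψ (φ x) = x) ∧ (∀ x, φ (ψ x) = x) ∧
      (∃ R : ℝ, ∀ x, R ≤ ‖x‖ → φ x = x) ∧ φ '' {x | F x = 0} = sphere (0 : V) 1 := by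
  have : Nontrivial V := Module.nontrivial_of_finrank_pos (R := ℝ) (by omega)
  obtain ⟨e, he⟩ := exists_norm_eq V zero_le_one
  refine one_pencil hV F hF hb hreg (Or.inl hM) none (fun v hv => by cases hv) e he
    (Or.inr (outside ?_))
  refine noFaceC_of_segments (fun z => -F z) hF.neg (saddles (fun z => -F z) none)
    (fun x hx => hx.1) R ?_ e
  intro x hx y hy
  obtain ⟨q, hq, h1, h2⟩ := hvis x hx y hy
  have key : ∀ z, z ∈ {z | 0 ≤ F z} → z ∈ {z | (fun z => -F z) z ≤ 0} := fun z hz => by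
    have h0 : 0 ≤ F z := hz
    show -F z ≤ 0
    linarith
  exact ⟨q, hq, fun z hz => key z (h1 hz), fun z hz => key z (h2 hz)⟩

/-- Consequence: for some hyperplane every point of `saddles F none` is joined with this hyperplane
by a segment inside `W = {F ≤ 0}`. -/
theorem hyperplane (hV : Module.finrank ℝ V = 4) (F : V → ℝ)
    (hF : ContDiff ℝ ∞ F) (hb : Bornology.IsBounded {x | F x ≤ 0})
    (hreg : ∀ x, F x = 0 → gradient F x ≠ 0)
    (hM : Nonempty ({x : V // F x = 0} ≃ₜ sphere (0 : V) 1)) (e : V) (he : ‖e‖ = 1) (c : ℝ)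
    (hvis : ∀ x ∈ saddles F none, ∃ q, ⟪e, q⟫ = c ∧ segment ℝ q x ⊆ {y | F y ≤ 0}) :
    ∃ φ ψ : V → V, ContDiff ℝ ∞ φ ∧ ContDiff ℝ ∞ ψ ∧ (∀ x, ψ (φ x) = x) ∧ (∀ x, φ (ψ x) = x) ∧
      (∃ R : ℝ, ∀ x, R ≤ ‖x‖ → φ x = x) ∧ φ '' {x | F x = 0} = sphere (0 : V) 1 := by
  refine one_pencil hV F hF hb hreg (Or.inl hM) none (fun v hv => by cases hv) e he (Or.inl ?_)
  refine noFaceC_of_guards F hF (saddles F none) {q | ⟪e, q⟫ = c ∧ F q ≤ 0}
    (hb.subset fun q hq => hq.2) e (fun p hp q hq => hp.1.trans hq.1.symm) fun x hx => ?_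
  obtain ⟨q, hq, hs⟩ := hvis x hx
  exact ⟨q, ⟨hq, hs (left_mem_segment ℝ q x)⟩, gd_of_segment F hF hx.1 hs⟩

/-- Consequence: `W = {F ≤ 0}` is a union of four star-shaped sets. -/
theorem four_star_shaped (hV : Module.finrank ℝ V = 4) (F : V → ℝ)
    (hF : ContDiff ℝ ∞ F) (hb : Bornology.IsBounded {x | F x ≤ 0})
    (hreg : ∀ x, F x = 0 → gradient F x ≠ 0)
    (hM : Nonempty ({x : V // F x = 0} ≃ₜ sphere (0 : V) 1))
    (q : Fin 4 → V) (A : Fin 4 → Set V) (hA : ∀ i, StarConvex ℝ (q i) (A i))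
    (hU : {x | F x ≤ 0} = ⋃ i, A i) :
    ∃ φ ψ : V → V, ContDiff ℝ ∞ φ ∧ ContDiff ℝ ∞ ψ ∧ (∀ x, ψ (φ x) = x) ∧ (∀ x, φ (ψ x) = x) ∧
      (∃ R : ℝ, ∀ x, R ≤ ‖x‖ → φ x = x) ∧ φ '' {x | F x = 0} = sphere (0 : V) 1 := by
  refine four_guards hV F hF hb hreg hM (range q) (finite_range q).isBounded
    (finrank_vectorSpan_range_le ℝ q (by simp)) fun x hx => ?_
  have h0 : x ∈ {x | F x ≤ 0} := le_of_eq hx.1
  rw [hU] at h0
  obtain ⟨i, hi⟩ := mem_iUnion.1 h0
  refine ⟨q i, mem_range_self i, ?_⟩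
  rw [hU]
  exact ((starConvex_iff_segment_subset.1 (hA i)) hi).trans (subset_iUnion A i)

/-! ### Curvature integrals -/

section Curvature

open scoped ENNReal
open MeasureTheory

/-- Consequence: the curvature carried by facing pairs.  Let `w` be a measurable weight such that
`w(x) + w(y) ≥ 1` for all points `x, y` of nonzero curvature with exactly two negative principal
curvatures, `N(x) = -N(y)` and `⟪N(y), x - y⟫ > 0`.  If `2 ∫ w |K|` over the points with exactly two
negative principal curvatures is less than the volume of the unit sphere, then `M` is unknotted.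
The same holds for exactly one negative principal curvature and `⟪N(y), x - y⟫ < 0`. -/
theorem facing_weights [MeasurableSpace V] [BorelSpace V]
    (hV : Module.finrank ℝ V = 4) (F : V → ℝ) (hF : ContDiff ℝ ∞ F)
    (hb : Bornology.IsBounded {x | F x ≤ 0}) (hreg : ∀ x, F x = 0 → gradient F x ≠ 0)
    (hM : Nonempty ({x : V // F x = 0} ≃ₜ sphere (0 : V) 1) ∨
      (IsConnected {x | F x = 0} ∧
        ∀ u : V → ℂ, ContinuousOn u {x | F x = 0} → (∀ x ∈ {x | F x = 0}, ‖u x‖ = 1) →
          ∃ v : V → ℝ, ContinuousOn v {x | F x = 0} ∧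
            ∀ x ∈ {x | F x = 0}, u x = Complex.exp (v x * Complex.I)))
    (w : V → ℝ≥0∞) (hw : Measurable w)
    (hcurv :
      ((∀ x y, F x = 0 → F y = 0 → gaussK F x ≠ 0 → gaussK F y ≠ 0 → nneg F x = 2 →
          nneg F y = 2 → nrm F x = -nrm F y → 0 < ⟪nrm F y, x - y⟫ → 1 ≤ w x + w y) ∧
        2 * ∫⁻ x in {x | F x = 0 ∧ nneg F x = 2}, w x * ENNReal.ofReal |gaussK F x| ∂μH[3] <
          μH[3] (sphere (0 : V) 1)) ∨
      ((∀ x y, F x = 0 → F y = 0 → gaussK F x ≠ 0 → gaussK F y ≠ 0 → nneg F x = 1 →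
          nneg F y = 1 → nrm F x = -nrm F y → ⟪nrm F y, x - y⟫ < 0 → 1 ≤ w x + w y) ∧
        2 * ∫⁻ x in {x | F x = 0 ∧ nneg F x = 1}, w x * ENNReal.ofReal |gaussK F x| ∂μH[3] <
          μH[3] (sphere (0 : V) 1))) :
    ∃ φ ψ : V → V, ContDiff ℝ ∞ φ ∧ ContDiff ℝ ∞ ψ ∧ (∀ x, ψ (φ x) = x) ∧ (∀ x, φ (ψ x) = x) ∧
      (∃ R : ℝ, ∀ x, R ≤ ‖x‖ → φ x = x) ∧ φ '' {x | F x = 0} = sphere (0 : V) 1 := by
  have hM' : IsConnected {x | F x = 0} ∧ LiftS {x | F x = 0} := by
    rcases hM with h | h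
    · exact level_top (by omega) F h
    · exact h
  have hK : IsCompact {x | F x = 0} := Final_compact hF.continuous hb
  rcases hcurv with ⟨h1, h2⟩ | ⟨h1, h2⟩
  · obtain ⟨e, he, h⟩ := noFace21_of_weight hV F hF hreg hK w hw h1 h2
    exact f2_carries hV F hF hb hreg hM'.1 hM'.2 e he (Or.inl h)
  · obtain ⟨e, he, h⟩ := noFace21_neg_of_weight hV F hF hreg hK w hw h1 h2
    exact f2_carries hV F hF hb hreg hM'.1 hM'.2 e he (Or.inr h)

theorem measurable_nrm [MeasurableSpace V] [BorelSpace V] (F : V → ℝ) (hF : ContDiff ℝ ∞ F) :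
    Measurable (nrm F) := by
  have hg : Measurable (gradient F) :=
    ((InnerProductSpace.toDual ℝ V).symm.continuous.comp
      (hF.continuous_fderiv (by simp))).measurable
  exact hg.norm.inv.smul hg

/-- Consequence: nearly star-shaped.  If the points `x` with exactly two negative principal
curvatures and `⟪x - o, N(x)⟫ ≤ 0` carry curvature less than half of the volume of the unit sphere,
then `M` is unknotted; the same for exactly one negative principal curvature and
`0 ≤ ⟪x - o, N(x)⟫`. -/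
theorem nearly_star [MeasurableSpace V] [BorelSpace V]
    (hV : Module.finrank ℝ V = 4) (F : V → ℝ) (hF : ContDiff ℝ ∞ F)
    (hb : Bornology.IsBounded {x | F x ≤ 0}) (hreg : ∀ x, F x = 0 → gradient F x ≠ 0)
    (hM : Nonempty ({x : V // F x = 0} ≃ₜ sphere (0 : V) 1)) (o : V)
    (hcurv :
      2 * ∫⁻ x in {x | F x = 0 ∧ nneg F x = 2 ∧ ⟪x - o, nrm F x⟫ ≤ 0},
        ENNReal.ofReal |gaussK F x| ∂μH[3] < μH[3] (sphere (0 : V) 1) ∨
      2 * ∫⁻ x in {x | F x = 0 ∧ nneg F x = 1 ∧ 0 ≤ ⟪x - o, nrm F x⟫},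
        ENNReal.ofReal |gaussK F x| ∂μH[3] < μH[3] (sphere (0 : V) 1)) :
    ∃ φ ψ : V → V, ContDiff ℝ ∞ φ ∧ ContDiff ℝ ∞ ψ ∧ (∀ x, ψ (φ x) = x) ∧ (∀ x, φ (ψ x) = x) ∧
      (∃ R : ℝ, ∀ x, R ≤ ‖x‖ → φ x = x) ∧ φ '' {x | F x = 0} = sphere (0 : V) 1 := by
  classical
  have hn := measurable_nrm F hF
  have hh : Measurable fun x : V => ⟪x - o, nrm F x⟫ := (measurable_id.sub_const o).inner hn
  have key : ∀ (S : Set V) (T : Set V), MeasurableSet T →
      ∫⁻ x in S, T.indicator (fun _ => (1 : ℝ≥0∞)) x * ENNReal.ofReal |gaussK F x| ∂μH[3] ≤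
        ∫⁻ x in S ∩ T, ENNReal.ofReal |gaussK F x| ∂μH[3] := by
    intro S T hT
    have e1 : (fun x => T.indicator (fun _ => (1 : ℝ≥0∞)) x * ENNReal.ofReal |gaussK F x|) =
        T.indicator fun x => ENNReal.ofReal |gaussK F x| := by
      funext x
      by_cases hx : x ∈ T
      · rw [indicator_of_mem hx, indicator_of_mem hx, one_mul]
      · rw [indicator_of_notMem hx, indicator_of_notMem hx, zero_mul]
    rw [e1, lintegral_indicator hT, Measure.restrict_restrict hT, inter_comm]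
  rcases hcurv with h | h
  · have hT : MeasurableSet {x : V | ⟪x - o, nrm F x⟫ ≤ 0} := measurableSet_le hh measurable_const
    refine facing_weights hV F hF hb hreg (Or.inl hM)
      ({x : V | ⟪x - o, nrm F x⟫ ≤ 0}.indicator fun _ => 1) (measurable_const.indicator hT)
      (Or.inl ⟨?_, ?_⟩)
    · intro x y _ _ _ _ _ _ hxy hpos
      by_cases hx : ⟪x - o, nrm F x⟫ ≤ 0
      · rw [indicator_of_mem (show x ∈ {x : V | ⟪x - o, nrm F x⟫ ≤ 0} from hx)]
        exact le_self_add
      · have hy : ⟪y - o, nrm F y⟫ ≤ 0 := by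
          rw [hxy, inner_neg_right] at hx
          rw [real_inner_comm] at hpos
          have e2 : x - y = (x - o) - (y - o) := by abel
          rw [e2, inner_sub_left] at hpos
          linarith
        rw [indicator_of_mem (show y ∈ {x : V | ⟪x - o, nrm F x⟫ ≤ 0} from hy)]
        exact le_add_self
    · refine lt_of_le_of_lt ?_ h
      refine mul_le_mul_right ((key _ _ hT).trans (lintegral_mono_set ?_)) 2
      rintro x ⟨⟨h1, h2⟩, h3⟩
      exact ⟨h1, h2, h3⟩
  · have hT : MeasurableSet {x : V | 0 ≤ ⟪x - o, nrm F x⟫} := measurableSet_le measurable_const hh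
    refine facing_weights hV F hF hb hreg (Or.inl hM)
      ({x : V | 0 ≤ ⟪x - o, nrm F x⟫}.indicator fun _ => 1) (measurable_const.indicator hT)
      (Or.inr ⟨?_, ?_⟩)
    · intro x y _ _ _ _ _ _ hxy hpos
      by_cases hx : 0 ≤ ⟪x - o, nrm F x⟫
      · rw [indicator_of_mem (show x ∈ {x : V | 0 ≤ ⟪x - o, nrm F x⟫} from hx)]
        exact le_self_add
      · have hy : 0 ≤ ⟪y - o, nrm F y⟫ := by
          rw [hxy, inner_neg_right] at hx
          rw [real_inner_comm] at hpos
          have e2 : x - y = (x - o) - (y - o) := by abel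
          rw [e2, inner_sub_left] at hpos
          linarith
        rw [indicator_of_mem (show y ∈ {x : V | 0 ≤ ⟪x - o, nrm F x⟫} from hy)]
        exact le_add_self
    · refine lt_of_le_of_lt ?_ h
      refine mul_le_mul_right ((key _ _ hT).trans (lintegral_mono_set ?_)) 2
      rintro x ⟨⟨h1, h2⟩, h3⟩
      exact ⟨h1, h2, h3⟩

/-- Consequence: the support function.  Let `M` lie in the ball of centre `o` and radius `r`.  If
the integral of `(1 - ⟪x - o, N⟫ / r) |K|` over the points with exactly two negative principal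
curvatures, or the one of `(1 + ⟪x - o, N⟫ / r) |K|` over the points with exactly one, is less than
the volume of the unit sphere, then `M` is unknotted. -/
theorem support [MeasurableSpace V] [BorelSpace V]
    (hV : Module.finrank ℝ V = 4) (F : V → ℝ) (hF : ContDiff ℝ ∞ F)
    (hb : Bornology.IsBounded {x | F x ≤ 0}) (hreg : ∀ x, F x = 0 → gradient F x ≠ 0)
    (hM : Nonempty ({x : V // F x = 0} ≃ₜ sphere (0 : V) 1)) (o : V) (r : ℝ) (hr : 0 < r)
    (hball : ∀ x, F x = 0 → ‖x - o‖ ≤ r)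
    (hcurv :
      ∫⁻ x in {x | F x = 0 ∧ nneg F x = 2},
        ENNReal.ofReal ((1 - ⟪x - o, nrm F x⟫ / r) * |gaussK F x|) ∂μH[3] <
          μH[3] (sphere (0 : V) 1) ∨
      ∫⁻ x in {x | F x = 0 ∧ nneg F x = 1},
        ENNReal.ofReal ((1 + ⟪x - o, nrm F x⟫ / r) * |gaussK F x|) ∂μH[3] <
          μH[3] (sphere (0 : V) 1)) :
    ∃ φ ψ : V → V, ContDiff ℝ ∞ φ ∧ ContDiff ℝ ∞ ψ ∧ (∀ x, ψ (φ x) = x) ∧ (∀ x, φ (ψ x) = x) ∧
      (∃ R : ℝ, ∀ x, R ≤ ‖x‖ → φ x = x) ∧ φ '' {x | F x = 0} = sphere (0 : V) 1 := by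
  have hn := measurable_nrm F hF
  have hh : Measurable fun x : V => ⟪x - o, nrm F x⟫ / r :=
    ((measurable_id.sub_const o).inner hn).div_const r
  have hle : ∀ x, F x = 0 → |⟪x - o, nrm F x⟫ / r| ≤ 1 := by
    intro x hx
    rw [abs_div, abs_of_pos hr, div_le_one hr]
    refine (abs_real_inner_le_norm _ _).trans ?_
    rw [norm_nrm F x (hreg x hx), mul_one]
    exact hball x hx
  have hsum : ∀ x y : V, nrm F x = -nrm F y → ⟪x - o, nrm F x⟫ / r + ⟪y - o, nrm F y⟫ / r =
      -(⟪nrm F y, x - y⟫ / r) := by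
    intro x y hxy
    have e2 : x - y = (x - o) - (y - o) := by abel
    rw [hxy, e2, inner_neg_right, inner_sub_right, real_inner_comm (x - o) (nrm F y),
      real_inner_comm (y - o) (nrm F y)]
    ring
  have two : (2 : ℝ≥0∞) = ENNReal.ofReal 2 := by norm_num
  rcases hcurv with h | h
  · refine facing_weights hV F hF hb hreg (Or.inl hM)
      (fun x => ENNReal.ofReal ((1 - ⟪x - o, nrm F x⟫ / r) / 2))
      ((measurable_const.sub hh).div_const 2).ennreal_ofReal (Or.inl ⟨?_, ?_⟩)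
    · intro x y hx hy _ _ _ _ hxy hpos
      have h1 := hsum x y hxy
      have h2 := (abs_le.1 (hle x hx)).2
      have h3 := (abs_le.1 (hle y hy)).2
      have h4 : 0 < ⟪nrm F y, x - y⟫ / r := div_pos hpos hr
      rw [← ENNReal.ofReal_add (by linarith) (by linarith), ENNReal.one_le_ofReal]
      linarith
    · refine lt_of_le_of_lt ?_ h
      rw [← lintegral_const_mul' _ _ (by norm_num)]
      refine lintegral_mono fun x => ?_
      rw [two, ← mul_assoc, ← ENNReal.ofReal_mul (by norm_num), mul_div_cancel₀ _ (two_ne_zero),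
        ← ENNReal.ofReal_mul' (abs_nonneg _)]
  · refine facing_weights hV F hF hb hreg (Or.inl hM)
      (fun x => ENNReal.ofReal ((1 + ⟪x - o, nrm F x⟫ / r) / 2))
      ((measurable_const.add hh).div_const 2).ennreal_ofReal (Or.inr ⟨?_, ?_⟩)
    · intro x y hx hy _ _ _ _ hxy hpos
      have h1 := hsum x y hxy
      have h2 := (abs_le.1 (hle x hx)).1
      have h3 := (abs_le.1 (hle y hy)).1
      have h4 : ⟪nrm F y, x - y⟫ / r < 0 := div_neg_of_neg_of_pos hpos hr
      rw [← ENNReal.ofReal_add (by linarith) (by linarith), ENNReal.one_le_ofReal]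
      linarith
    · refine lt_of_le_of_lt ?_ h
      rw [← lintegral_const_mul' _ _ (by norm_num)]
      refine lintegral_mono fun x => ?_
      rw [two, ← mul_assoc, ← ENNReal.ofReal_mul (by norm_num), mul_div_cancel₀ _ (two_ne_zero),
        ← ENNReal.ofReal_mul' (abs_nonneg _)]

end Curvature

end Pool.Agent.Results.MP_6c077c_gt.SaddlePencils
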