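import Pool.Agent.H.MP_6c077c_gt.Manifold
import Pool.Agent.H.MP_6c077c_gt.ThickS

/-!
# Thick spheres in the round sphere are smoothly unknotted (MP_6c077c_gt)

A smoothly embedded `n`-sphere `M` in the unit sphere of dimension `n + 1` (`n ≥ 1`, in particular
`n = 3`) which admits at every point tangent open geodesic balls of radius `r₁` on one side and of
radius `r₂` on the other side, not meeting `M`, with `r₁ + r₂ > π / 3`, is carried onto the
standard equator by a diffeomorphism of the sphere.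
-/

set_option autoImplicit false

namespace Pool.Agent.Results.MP_6c077c_gt.ThickSpheres

open scoped ContDiff RealInnerProductSpace Manifold
open Metric Set Real Pool.Schoen

section general

variable {E : Type*} [NormedAddCommGroup E] [NormedSpace ℝ E] {H : Type*} [TopologicalSpace H]
  {M : Type*} [TopologicalSpace M] [ChartedSpace H M]
  {E' : Type*} [NormedAddCommGroup E'] [NormedSpace ℝ E'] {H' : Type*} [TopologicalSpace H']
  {M' : Type*} [TopologicalSpace M'] [ChartedSpace H' M']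
  {F : Type*} [NormedAddCommGroup F] [InnerProductSpace ℝ F]

/-- `f` is a smooth embedding: a smooth immersion which is a topological embedding. -/
def SmoothEmbedding (I : ModelWithCorners ℝ E H) (I' : ModelWithCorners ℝ E' H') (f : M → M') :
    Prop :=
  ContMDiff I I' ∞ f ∧ (∀ x, Function.Injective (mfderiv I I' f x)) ∧ Topology.IsEmbedding f

/-- For a map `f` to the unit sphere of an inner product space `F`: `ν` is a smooth field of unit
vectors of `F` with `ν p` orthogonal to `f p` and to the image of the derivative of `f` at `p`. -/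
def UnitNormal (I : ModelWithCorners ℝ E H) (f ν : M → F) : Prop :=
  ContMDiff I 𝓘(ℝ, F) ∞ ν ∧ (∀ p, ‖ν p‖ = 1) ∧ (∀ p, ⟪f p, ν p⟫ = 0) ∧
    ∀ (p : M) (v : TangentSpace I p), @inner ℝ F _ (mfderiv I 𝓘(ℝ, F) f p v) (ν p) = 0

/-- For a map `f` to the unit sphere of `F` and a field `ν` of unit vectors orthogonal to `f`: no
`f q` lies in the open geodesic ball of radius `r` about the point `cos r • f p + sin r • ν p`, the
end of the geodesic of length `r` which starts from `f p` in the direction `ν p`. -/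
def EmptyBalls (f ν : M → F) (r : ℝ) : Prop :=
  ∀ p q, ⟪f q, cos r • f p + sin r • ν p⟫ ≤ cos r

/-- Some smooth diffeomorphism of `M` maps `A` onto `B`. -/
def DiffeoCarries (I : ModelWithCorners ℝ E H) (A B : Set M) : Prop :=
  ∃ Φ : Diffeomorph I I M M ∞, Φ '' A = B

end general

/-- The unit sphere of dimension `n` in `EuclideanSpace ℝ (Fin (n + 1))`. -/
abbrev Sph (n : ℕ) : Type := sphere (0 : EuclideanSpace ℝ (Fin (n + 1))) 1

/-- `f` as a map to the ambient space of the sphere of dimension `n + 1`. -/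
def amb {n : ℕ} (f : Sph n → Sph (n + 1)) : Sph n → EuclideanSpace ℝ (Fin (n + 1 + 1)) :=
  fun x => f x

/-- `f` is a smooth embedding of spheres. -/
def IsSmoothEmbedding (n : ℕ) (f : Sph n → Sph (n + 1)) : Prop :=
  SmoothEmbedding (𝓡 n) (𝓡 (n + 1)) f

/-- `ν` is a smooth unit normal field of `f`, tangent to the sphere of dimension `n + 1`. -/
def IsUnitNormal (n : ℕ) (f : Sph n → Sph (n + 1))
    (ν : Sph n → EuclideanSpace ℝ (Fin (n + 1 + 1))) : Prop :=
  UnitNormal (𝓡 n) (amb f) ν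

/-- The standard equator of the sphere of dimension `n + 1`: the last coordinate vanishes. -/
def equator (n : ℕ) : Set (Sph (n + 1)) :=
  {y | (y : EuclideanSpace ℝ (Fin (n + 1 + 1))) (Fin.last (n + 1)) = 0}

/-- Some smooth diffeomorphism of the sphere of dimension `n + 1` maps the image of `f` onto the
standard equator. -/
def IsUnknotted (n : ℕ) (f : Sph n → Sph (n + 1)) : Prop :=
  DiffeoCarries (𝓡 (n + 1)) (range f) (equator n)

theorem result (n : ℕ) (hn : 1 ≤ n) (f : Sph n → Sph (n + 1)) (hf : IsSmoothEmbedding n f)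
    (ν : Sph n → EuclideanSpace ℝ (Fin (n + 1 + 1))) (hν : IsUnitNormal n f ν)
    (r₁ r₂ : ℝ) (h₁ : r₁ ∈ Ioo 0 π) (h₂ : r₂ ∈ Ioo 0 π) (hsum : π / 3 < r₁ + r₂)
    (hb₁ : EmptyBalls (amb f) (-ν) r₁) (hb₂ : EmptyBalls (amb f) ν r₂) : IsUnknotted n f := by
  obtain ⟨hf, himm, hemb⟩ := hf
  obtain ⟨hν, hν1, hνf, hνd⟩ := hν
  have hπ := pi_pos
  have hnf : ∀ p, ‖(f p : EuclideanSpace ℝ (Fin (n + 1 + 1)))‖ = 1 := fun p => by
    simpa using (f p).2
  set s₁ := min r₁ (π / 3) with hs₁
  set s₂ := min r₂ (π / 3) with hs₂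
  have e1 : 0 < s₁ := lt_min h₁.1 (by linarith)
  have e2 : 0 < s₂ := lt_min h₂.1 (by linarith)
  have e1' : s₁ < π / 2 := (min_le_right _ _).trans_lt (by linarith)
  have e2' : s₂ < π / 2 := (min_le_right _ _).trans_lt (by linarith)
  have esum : π / 3 < s₁ + s₂ := by
    rcases min_cases r₁ (π / 3) with ⟨h, _⟩ | ⟨h, _⟩ <;>
      rcases min_cases r₂ (π / 3) with ⟨h', _⟩ | ⟨h', _⟩ <;> rw [hs₁, hs₂, h, h'] <;>
      linarith [h₁.1, h₂.1]
  obtain ⟨g, μ, hg, hgf⟩ := exists_sthick n f hf himm hemb.injective ν hν hν1 hνf hνd s₁ s₂ e1 e1'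
    e2 e2'
    (fun p q => by
      have := ball_shrink (f p : EuclideanSpace ℝ (Fin (n + 1 + 1))) (-ν p) (f q) (hnf p) (hnf q)
        r₁ s₁ e1 (min_le_left _ _) h₁.2 (by simpa [amb] using hb₁ p q)
      simpa [sub_eq_add_neg] using this)
    (fun p q => ball_shrink (f p : EuclideanSpace ℝ (Fin (n + 1 + 1))) (ν p) (f q) (hnf p) (hnf q)
        r₂ s₂ e2 (min_le_left _ _) h₂.2 (hb₂ p q))
  obtain ⟨c, hc, a, b, ha, hb, hab, himg⟩ := thick_S hg (by simp; omega) (by simp) esum
  obtain ⟨L, hL⟩ := exists_rotation (n + 1) c hc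
  obtain ⟨Φ, hΦ⟩ := exists_diffeo (n + 1) (fun y => L (a y)) (fun y => b (L.symm y))
    (L.toContinuousLinearEquiv.contDiff.comp_contDiffOn ha)
    (hb.comp L.symm.toContinuousLinearEquiv.contDiff.contDiffOn (fun y hy => by
      simp only [mem_compl_iff, mem_singleton_iff] at hy ⊢
      intro h
      apply hy
      exact (map_eq_zero_iff L.symm L.symm.injective).1 h))
    (fun y hy => by
      obtain ⟨q1, q2, q3, q4⟩ := hab y hy
      obtain ⟨q1', q2', q3', q4'⟩ := hab (L.symm y) (by simpa using hy)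
      refine ⟨by simpa using q1, by simpa using q2', by simpa using q3, ?_⟩
      simp [q4'])
  refine ⟨Φ, ?_⟩
  ext y
  simp only [equator, mem_image, mem_range, exists_exists_eq_and, mem_ofPred_eq]
  have hy1 : ‖(y : EuclideanSpace ℝ (Fin (n + 1 + 1)))‖ = 1 := by simpa using y.2
  constructor
  · rintro ⟨p, rfl⟩
    rw [hΦ, hL]
    have : a (f p) ∈ a '' (g '' sphere 0 1) := ⟨f p, ⟨p, p.2, hgf p⟩, rfl⟩
    rw [himg] at this
    exact this.2
  · intro hy
    have hz : L.symm (y : EuclideanSpace ℝ (Fin (n + 1 + 1))) ∈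
        {y : EuclideanSpace ℝ (Fin (n + 1 + 1)) | ‖y‖ = 1 ∧ ⟪y, c⟫ = 0} := by
      refine ⟨by simpa using hy1, ?_⟩
      rw [← hL, LinearIsometryEquiv.apply_symm_apply]
      exact hy
    rw [← himg] at hz
    obtain ⟨_, ⟨p, hp, rfl⟩, hpa⟩ := hz
    refine ⟨⟨p, hp⟩, ?_⟩
    apply Subtype.ext
    rw [hΦ, ← hgf ⟨p, hp⟩]
    simp only
    rw [hpa, LinearIsometryEquiv.apply_symm_apply]

end Pool.Agent.Results.MP_6c077c_gt.ThickSpheres
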